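import Pool.Agent.Q96.HE.Fin

/-!
# Algebraic hyperbolicity of surfaces over orbifold pairs
-/

set_option autoImplicit false

namespace Pool.Agent.Q96.HE

open MvPolynomial FF Pool.Agent.W603.LV Pool.Agent.W603.PV Pool.Agent.W602.GT Pool.Agent.Q271.RC
open Pool.Agent.Q96.LS Pool.Agent.Q96.OS Pool.Agent.Q72.NA Pool.Agent.Q186.RU

theorem orbOff_mono {N n m m' : ℕ} {K : Type} [Field K] [Algebra ℂ K]
    {Q : MvPolynomial (Fin (n + 1)) ℂ} {b : Fin (N + 1) → K}
    {D : Set (MvPolynomial (Fin (N + 1)) ℂ)} {h : Fin (n + 1) → MvPolynomial (Fin (N + 1)) ℂ}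
    (hm : m ≤ m') (H : OrbOff m' Q b D h) : OrbOff m Q b D h :=
  fun L _ _ v hv hne z hz => (H L v hv hne z hz).mono hm

/-- **The bound outside a closed subset**, for all nonconstant maps. -/
theorem bound_off {N n d : ℕ} {K : Type} [Field K] [Algebra ℂ K] {a : Fin (N + 1) → K}
    {f : Fin (n + 1) → MvPolynomial (Fin (N + 1)) ℂ} {e : ℕ} {Q : MvPolynomial (Fin (n + 1)) ℂ}
    (hX : IsOrbPair d a f e Q) :
    ∃ m0 : ℕ, ∀ m, m0 ≤ m → ∀ (N' : ℕ) (K' : Type) [Field K'] [Algebra ℂ K'] [Algebra K K']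
      [IsScalarTower ℂ K K'] (b : Fin (N' + 1) → K')
      (g : Fin (N + 1) → MvPolynomial (Fin (N' + 1)) ℂ) (e' : ℕ), IsCover a b g e' →
      ∀ D : Set (MvPolynomial (Fin (N' + 1)) ℂ), (∀ F ∈ D, ∃ E, F.IsHomogeneous E) →
      OrbOff m Q b D (fun i => bind₁ g (f i)) →
      ∃ (G : MvPolynomial (Fin (N' + 1)) ℂ) (E' R : ℕ), G.IsHomogeneous E' ∧ aeval b G ≠ 0 ∧
        ∀ (L : Type) [Field L] [Algebra ℂ L] [IsFF ℂ L] (v : Fin (N' + 1) → L), IsMap b D v →
          aeval v G ≠ 0 → pht ℂ v ≤ R * eul D v := by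
  obtain ⟨B, E, A, m1, hB, hBa, hmain⟩ := pair_linear hX
  refine ⟨m1, fun m hm N' K' _ _ _ _ b g e' hY D hD hoff => ?_⟩
  obtain ⟨c, hc, hgc⟩ := hY.map
  obtain ⟨H, E', C, hH, hHb, hup⟩ := height_cover hX.gen hY
  refine ⟨H * bind₁ g B, E' + e' * E, C * A, hH.mul (hom_bind g e' hY.hom hB), ?_, ?_⟩
  · rw [map_mul, gen_comp a b g c hgc hB]
    exact mul_ne_zero hHb (mul_ne_zero (pow_ne_zero _ hc) ((map_ne_zero _).2 hBa))
  intro L _ _ _ v hv hne
  rw [map_mul] at hne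
  have hpv := pht_pos v hv.nonconst
  obtain ⟨hv0, hu0, hht⟩ := hup L v (fun H E hH hHb => hv.point H E hH hHb)
    (left_ne_zero_of_mul hne)
  have hpu : 0 < pht ℂ (fun i => aeval v (g i)) := by
    by_contra hcon
    rw [not_lt] at hcon
    have h7 := mul_nonpos_of_nonneg_of_nonpos (Int.natCast_nonneg C) hcon
    linarith
  have hnc := nonconst_of_pht hu0 hpu
  have hBv : aeval (fun i => aeval v (g i)) B ≠ 0 := by
    rw [← aeval_bind₁]
    exact right_ne_zero_of_mul hne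
  have hfin := fin_centre v hv0 D hD hv.off
  have hpt : PtF (F := ℂ) a (fun i => aeval v (g i)) :=
    pt_comp a b g e' hY.hom c hgc v fun H E hH hHb => hv.point H E hH hHb
  obtain ⟨h1, h2⟩ := hmain m hm L (fun i => aeval v (g i)) hpt hBv hu0
  have h1' : ∀ i, aeval v (bind₁ g (f i)) ≠ 0 := fun i => by
    rw [aeval_bind₁]
    exact h1 i
  have h3 := h2 hfin.toFinset (fun z hz => by
    have h4 := hoff L v hv.point h1' z (by
      rw [Set.Finite.mem_toFinset] at hz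
      exact hz)
    simp only [aeval_bind₁] at h4
    exact h4) hnc
  unfold eul
  rw [Set.ncard_eq_toFinset_card _ hfin]
  refine (hht.trans (mul_le_mul_of_nonneg_left h3 (Int.natCast_nonneg _))).trans (le_of_eq ?_)
  push_cast
  ring

/-- **Surfaces.** -/
theorem surface {N : ℕ} {K : Type} [Field K] [Algebra ℂ K] {b : Fin (N + 1) → K} {d : ℕ}
    (hb : IsGeneric b) (hd : Algebra.trdeg ℂ K = d) (hd2 : d ≤ 2)
    {D : Set (MvPolynomial (Fin (N + 1)) ℂ)} (hD : ∀ F ∈ D, ∃ E, F.IsHomogeneous E)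
    (hfull : ∀ (L : Type) [Field L] [Algebra ℂ L] (v : Fin (N + 1) → L), IsPoint b v →
      IsGeneric v → ¬ LiesIn D v → Algebra.trdeg ℂ L = d → LogGeneralType ℂ L d (CentreIn D v))
    {G : MvPolynomial (Fin (N + 1)) ℂ} {E R : ℕ} (hG : G.IsHomogeneous E) (hGb : aeval b G ≠ 0)
    (hbd : ∀ (L : Type) [Field L] [Algebra ℂ L] [IsFF ℂ L] (v : Fin (N + 1) → L), IsMap b D v →
      aeval v G ≠ 0 → pht ℂ v ≤ R * eul D v) :
    (lowCurves b D).Finite ∧
    (∃ A : ℕ, ∀ (L : Type) [Field L] [Algebra ℂ L] [IsFF ℂ L] (v : Fin (N + 1) → L), IsMap b D v →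
      pht ℂ v ≤ A * eul D v ∨ vanForms v ∈ lowCurves b D) ∧
    (NoLowMaps b D → AlgHyperbolic b D) ∧ (AlgHyperbolic b D → NoLowMaps b D) ∧
    (NoLowMaps b D → Hyperbolic b D) ∧ (Hyperbolic b D → NoLowMaps b D) := by
  classical
  have hpos : ∀ (L : Type) [Field L] [Algebra ℂ L] [IsFF ℂ L] (v : Fin (N + 1) → L) (A : ℕ),
      IsMap b D v → pht ℂ v ≤ A * eul D v → 0 < eul D v := by
    intro L _ _ _ v A hv h
    by_contra hcon
    rw [not_lt] at hcon
    have h1 := mul_nonpos_of_nonneg_of_nonpos (Int.natCast_nonneg A) hcon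
    have h2 := pht_pos v hv.nonconst
    linarith
  have hfinV := finite_curves hd hd2 G hG hGb
  set 𝒱 := {V : Set (MvPolynomial (Fin (N + 1)) ℂ) | ∃ (L : Type) (_ : Field L) (_ : Algebra ℂ L)
      (v : Fin (N + 1) → L), IsPoint b v ∧ aeval v G = 0 ∧ Nonconst v ∧ V = vanForms v} with h𝒱
  -- finiteness
  have hlow : (lowCurves b D).Finite := by
    refine hfinV.subset ?_
    rintro V ⟨L, _, _, _, v, hv, hvg, heul, rfl⟩
    refine ⟨L, inferInstance, inferInstance, v, hv.point, ?_, hv.nonconst, rfl⟩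
    by_contra hGv
    exact absurd (hpos L v R hv (hbd L v hv hGv)) (not_lt.2 heul)
  -- the bound
  have hA : ∃ A : ℕ, ∀ (L : Type) [Field L] [Algebra ℂ L] [IsFF ℂ L] (v : Fin (N + 1) → L),
      IsMap b D v → pht ℂ v ≤ A * eul D v ∨ vanForms v ∈ lowCurves b D := by
    let Rep : Set (MvPolynomial (Fin (N + 1)) ℂ) → ℕ → Prop := fun V h =>
      ∃ (M : Type) (_ : Field M) (_ : Algebra ℂ M) (_ : IsFF ℂ M) (w : Fin (N + 1) → M),
        IsGeneric w ∧ vanForms w = V ∧ pht ℂ w = h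
    let ht : Set (MvPolynomial (Fin (N + 1)) ℂ) → ℕ := fun V =>
      if h : ∃ x, Rep V x then h.choose else 0
    have hht : ∀ V, (∃ x, Rep V x) → Rep V (ht V) := by
      intro V h
      simp only [ht, dif_pos h]
      exact h.choose_spec
    refine ⟨R + ∑ V ∈ hfinV.toFinset, ht V, fun L _ _ _ v hv => ?_⟩
    by_cases hGv : aeval v G = 0
    · have hV : vanForms v ∈ 𝒱 :=
        ⟨L, inferInstance, inferInstance, v, hv.point, hGv, hv.nonconst, rfl⟩
      obtain ⟨M0, _, _, _, w0, hw0, hs0⟩ := exists_curve hv.nonconst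
      have hnc0 : Nonconst w0 := nonconst_of hw0 (by
        rw [IsFF.trdeg (k := ℂ) (K := M0)]
        simp)
      have hrep := hht (vanForms v) ⟨(pht ℂ w0).toNat, M0, inferInstance, inferInstance,
        inferInstance, w0, hw0, hs0.van, (Int.toNat_of_nonneg (pht_pos w0 hnc0).le).symm⟩
      obtain ⟨M, _, _, _, w, hw, hwv, hwh⟩ := hrep
      have hs : SameCurve w v := sameCurve_of_van hwv
      have hv0 : ∃ j, v j ≠ 0 := by
        obtain ⟨i, j, hj, -⟩ := hv.nonconst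
        exact ⟨j, hj⟩
      obtain ⟨r, hr, hr1, hr2⟩ := curve_map hw hv0 hs D hD hv.off
      have hnc : Nonconst w := nonconst_of hw (by
        rw [IsFF.trdeg (k := ℂ) (K := M)]
        simp)
      have hmap : IsMap b D w := ⟨fun G E hG hGb => (hs G E hG).2 (hv.point G E hG hGb),
        fun h => hv.off ((hs.lies hD).1 h), hnc⟩
      by_cases hle : eul D w ≤ 0
      · right
        exact ⟨M, inferInstance, inferInstance, inferInstance, w, hmap, hw, hle, hwv.symm⟩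
      · left
        rw [not_le] at hle
        have h1 : (ht (vanForms v) : ℤ) ≤ ((R + ∑ V ∈ hfinV.toFinset, ht V : ℕ) : ℤ) := by
          have h2 : ht (vanForms v) ≤ ∑ V ∈ hfinV.toFinset, ht V :=
            Finset.single_le_sum (f := fun V => ht V) (fun _ _ => Nat.zero_le _)
              (hfinV.mem_toFinset.2 hV)
          exact_mod_cast h2.trans (Nat.le_add_left _ _)
        have hr' : (0 : ℤ) < r := by exact_mod_cast hr
        have h3 : (r : ℤ) ≤ eul D v := by nlinarith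
        have h4 : pht ℂ v ≤ ht (vanForms v) * eul D v := by
          rw [hr1, hwh, mul_comm]
          exact mul_le_mul_of_nonneg_left h3 (Int.natCast_nonneg _)
        exact h4.trans (mul_le_mul_of_nonneg_right h1 (by omega))
    · left
      have h1 := hbd L v hv hGv
      have h2 := hpos L v R hv h1
      refine h1.trans (mul_le_mul_of_nonneg_right ?_ h2.le)
      push_cast
      have : (0 : ℤ) ≤ ∑ V ∈ hfinV.toFinset, (ht V : ℤ) :=
        Finset.sum_nonneg fun _ _ => Int.natCast_nonneg _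
      linarith
  refine ⟨hlow, hA, ?_, ?_, ?_, ?_⟩
  · intro h
    obtain ⟨A, hA⟩ := hA
    refine ⟨A, fun L _ _ _ v hv => (hA L v hv).resolve_right ?_⟩
    rintro ⟨M, _, _, _, w, hw, -, heul, -⟩
    exact absurd (h M w hw) (not_lt.2 heul)
  · rintro ⟨A, hA⟩ L _ _ _ v hv
    exact hpos L v A hv (hA L v hv)
  · intro h L _ _ v t hv ht ht0
    obtain ⟨htd, -⟩ := gen_point' hb hd L v t hv.point hv.gen ht
    by_cases ht1 : t = 1
    · subst ht1
      have hff : IsFF ℂ L := ⟨ess_of_adjoin hv.gen.2, by rw [ht]; simp⟩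
      have h1 := h L v ⟨hv.point, hv.off, nonconst_of hv.gen ht⟩
      have hfin := fin_centre v hv.gen.1 D hD hv.off
      unfold eul at h1
      rw [Set.ncard_eq_toFinset_card _ hfin] at h1
      have h8 := lgt_one hfin.toFinset h1
      have h9 : (fun P : Place ℂ L => P ∈ hfin.toFinset) = CentreIn D v := by
        funext P
        rw [Set.Finite.mem_toFinset]
        rfl
      rwa [h9] at h8
    · obtain rfl : t = d := by omega
      exact hfull L v hv.point hv.gen hv.off ht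
  · intro h L _ _ _ v hv
    obtain ⟨M, _, _, _, w, hw, hs⟩ := exists_curve hv.nonconst
    have hv0 : ∃ j, v j ≠ 0 := by
      obtain ⟨i, j, hj, -⟩ := hv.nonconst
      exact ⟨j, hj⟩
    obtain ⟨r, hr, -, hr2⟩ := curve_map hw hv0 hs D hD hv.off
    have hoffw : ¬ LiesIn D w := fun h => hv.off ((hs.lies hD).1 h)
    have h1 := h M w 1 ⟨fun G E hG hGb => (hs G E hG).2 (hv.point G E hG hGb), hw, hoffw, by
      rw [map_one]
      exact one_ne_zero⟩ (by rw [IsFF.trdeg (k := ℂ) (K := M)]; simp) one_pos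
    have h2 := pos_of_lgt (fin_centre w hw.1 D hD hoffw) h1
    have h3 : 0 < eul D w := h2
    have hr' : (0 : ℤ) < r := by exact_mod_cast hr
    exact lt_of_lt_of_le (mul_pos hr' h3) hr2

/-- **The main theorem.** -/
theorem main {N n d : ℕ} {K : Type} [Field K] [Algebra ℂ K] {a : Fin (N + 1) → K}
    {f : Fin (n + 1) → MvPolynomial (Fin (N + 1)) ℂ} {e : ℕ} {Q : MvPolynomial (Fin (n + 1)) ℂ}
    (hd : 0 < d) (hd2 : d ≤ 2) (hX : IsOrbPair d a f e Q) :
    ∃ m : ℕ, ∀ (N' : ℕ) (K' : Type) [Field K'] [Algebra ℂ K'] [Algebra K K']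
      [IsScalarTower ℂ K K'] (b : Fin (N' + 1) → K')
      (g : Fin (N + 1) → MvPolynomial (Fin (N' + 1)) ℂ) (e' : ℕ), IsCover a b g e' →
      ∀ D : Set (MvPolynomial (Fin (N' + 1)) ℂ), (∀ F ∈ D, ∃ E, F.IsHomogeneous E) →
      OrbOff m Q b D (fun i => bind₁ g (f i)) →
      LogGeneralType ℂ K' d (CentreIn D b) ∧
      ((AlgHyperbolic b D ↔ NoLowMaps b D) ∧ (NoLowMaps b D ↔ Hyperbolic b D)) ∧
      (lowCurves b D).Finite ∧
      ∃ A : ℕ, ∀ (L : Type) [Field L] [Algebra ℂ L] [IsFF ℂ L] (v : Fin (N' + 1) → L),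
        IsMap b D v → pht ℂ v ≤ A * eul D v ∨ vanForms v ∈ lowCurves b D := by
  obtain ⟨m1, hm1⟩ := bound_off hX
  obtain ⟨m2, A, B, E, hB, hBa, hm2⟩ := Pool.Agent.Q96.OS.main hd hX
  refine ⟨m1 + m2, fun N' K' _ _ _ _ b g e' hY D hD hoff => ?_⟩
  obtain ⟨G1, E1, R1, hG1, hGb1, hbd1⟩ := hm1 (m1 + m2) (by omega) N' K' b g e' hY D hD hoff
  obtain ⟨hlgt, -, -, G2, E2, R2, hG2, hGb2, -, hst⟩ :=
    hm2 N' K' b g e' hY D hD (orbOff_mono (by omega) hoff)
  have hfull : ∀ (L : Type) [Field L] [Algebra ℂ L] (v : Fin (N' + 1) → L), IsPoint b v →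
      IsGeneric v → ¬ LiesIn D v → Algebra.trdeg ℂ L = d →
      LogGeneralType ℂ L d (CentreIn D v) := by
    intro L _ _ v hv hvg hoffv ht
    refine hst hd2 L v d ⟨hv, hvg, hoffv, ?_⟩ ht hd
    obtain ⟨-, hiso⟩ := gen_point' hY.gen hlgt.1 L v d hv hvg ht
    obtain ⟨σ, l, hl, hvl, hσ⟩ := hiso rfl
    have h1 : v = fun i => l * (fun i => σ (b i)) i := funext hvl
    rw [h1, hom_scale l _ hG2, aeval_map_hom]
    exact mul_ne_zero (pow_ne_zero _ hl) ((map_ne_zero σ).2 hGb2)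
  obtain ⟨h1, h2, h3, h4, h5, h6⟩ := surface hY.gen hlgt.1 hd2 hD hfull hG1 hGb1 hbd1
  exact ⟨hlgt, ⟨⟨h4, h3⟩, ⟨h5, h6⟩⟩, h1, h2⟩

end Pool.Agent.Q96.HE
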