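import Pool.Agent.Q96.OS.Defs

/-!
# Hyperbolicity of quasi-projective varieties: definitions
-/

set_option autoImplicit false

namespace Pool.Agent.Q96.HE

open MvPolynomial FF Pool.Agent.W603.LV Pool.Agent.W603.PV Pool.Agent.Q271.RC Pool.Agent.Q96.LS

/-- The number `2 g - 2 + s` for the map `v` from the curve with function field `L` to projective
space, `g` the genus of the curve and `s` the number of its points which are mapped to the closed
subset defined by `D`. -/
noncomputable def eul {N : ℕ} (D : Set (MvPolynomial (Fin (N + 1)) ℂ)) {L : Type} [Field L]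
    [Algebra ℂ L] [IsFF ℂ L] (v : Fin (N + 1) → L) : ℤ :=
  canDeg ℂ L + {P : Place ℂ L | CentreIn D v P}.ncard

/-- `v` is a nonconstant map to `Y`, the projective variety with generic point `b`, from the smooth
projective curve with function field `L`, and the image is not contained in `D`. -/
structure IsMap {N : ℕ} {K : Type} [Field K] [Algebra ℂ K] (b : Fin (N + 1) → K)
    (D : Set (MvPolynomial (Fin (N + 1)) ℂ)) {L : Type} [Field L] [Algebra ℂ L]
    (v : Fin (N + 1) → L) : Prop where
  point : IsPoint b v
  off : ¬ LiesIn D v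
  nonconst : Nonconst v

/-- `Y - D` is algebraically hyperbolic: the degrees of all nonconstant maps from curves to `Y` with
image not contained in `D` are at most `A (2 g - 2 + s)`. -/
def AlgHyperbolic {N : ℕ} {K : Type} [Field K] [Algebra ℂ K] (b : Fin (N + 1) → K)
    (D : Set (MvPolynomial (Fin (N + 1)) ℂ)) : Prop :=
  ∃ A : ℕ, ∀ (L : Type) [Field L] [Algebra ℂ L] [IsFF ℂ L] (v : Fin (N + 1) → L), IsMap b D v →
    pht ℂ v ≤ A * eul D v

/-- All maps to `Y` from curves with `2 g - 2 + s ≤ 0` are constant or have image contained in `D`.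
For empty `D` (that is, `D = {1}`) these are the curves of genus `0` and `1`. -/
def NoLowMaps {N : ℕ} {K : Type} [Field K] [Algebra ℂ K] (b : Fin (N + 1) → K)
    (D : Set (MvPolynomial (Fin (N + 1)) ℂ)) : Prop :=
  ∀ (L : Type) [Field L] [Algebra ℂ L] [IsFF ℂ L] (v : Fin (N + 1) → L), IsMap b D v →
    0 < eul D v

/-- All closed subvarieties of positive dimension of `Y - D` are of log general type. -/
def Hyperbolic {N : ℕ} {K : Type} [Field K] [Algebra ℂ K] (b : Fin (N + 1) → K)
    (D : Set (MvPolynomial (Fin (N + 1)) ℂ)) : Prop := StronglyLGT b D 1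

/-- The set of the forms which vanish at the point `v`; it determines the closed subvariety of
projective space with generic point `v`. -/
def vanForms {N : ℕ} {L : Type} [Field L] [Algebra ℂ L] (v : Fin (N + 1) → L) :
    Set (MvPolynomial (Fin (N + 1)) ℂ) := {p | (∃ E, p.IsHomogeneous E) ∧ aeval v p = 0}

/-- The closed curves in `Y - D` with `2 g - 2 + s ≤ 0`, each given by the set of the forms vanishing
on it. -/
def lowCurves {N : ℕ} {K : Type} [Field K] [Algebra ℂ K] (b : Fin (N + 1) → K)
    (D : Set (MvPolynomial (Fin (N + 1)) ℂ)) : Set (Set (MvPolynomial (Fin (N + 1)) ℂ)) :=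
  {V | ∃ (L : Type) (_ : Field L) (_ : Algebra ℂ L) (_ : IsFF ℂ L) (v : Fin (N + 1) → L),
    IsMap b D v ∧ IsGeneric v ∧ eul D v ≤ 0 ∧ V = vanForms v}

end Pool.Agent.Q96.HE
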