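import Pool.Agent.Q96.HE.Lgt
import Pool.Agent.Q96.OS.Main
import Pool.Agent.Q96.HE.Defs
import Pool.Agent.TH143.GE.Form

/-!
Nonconstant points over function fields of curves come from generic points of closed curves.
-/

set_option autoImplicit false

namespace Pool.Agent.Q96.HE

open MvPolynomial FF Pool.Agent.W603.LV Pool.Agent.W603.PV Pool.Agent.W602.GT Pool.Agent.Q271.RC
open Pool.Agent.Q96.LS Pool.Agent.Q96.OS Pool.Agent.Q72.NA

/-- The points `w` and `v` lie in the same closed subsets of projective space. -/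
def SameCurve {N : ℕ} {M : Type} [Field M] [Algebra ℂ M] (w : Fin (N + 1) → M) {L : Type} [Field L]
    [Algebra ℂ L] (v : Fin (N + 1) → L) : Prop :=
  ∀ (G : MvPolynomial (Fin (N + 1)) ℂ) (E : ℕ), G.IsHomogeneous E →
    (aeval w G = 0 ↔ aeval v G = 0)

theorem SameCurve.point {N : ℕ} {M : Type} [Field M] [Algebra ℂ M] {w : Fin (N + 1) → M} {L : Type}
    [Field L] [Algebra ℂ L] {v : Fin (N + 1) → L} (h : SameCurve w v) : IsPoint w v :=
  fun G E hG hGw => (h G E hG).1 hGw

theorem SameCurve.point' {N : ℕ} {M : Type} [Field M] [Algebra ℂ M] {w : Fin (N + 1) → M} {L : Type}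
    [Field L] [Algebra ℂ L] {v : Fin (N + 1) → L} (h : SameCurve w v) : IsPoint v w :=
  fun G E hG hGw => (h G E hG).2 hGw

/-- the function field of a closed subvariety embeds in the field of each of its generic points -/
theorem lift_point {N : ℕ} {M : Type} [Field M] [Algebra ℂ M] {w : Fin (N + 1) → M} {L : Type}
    [Field L] [Algebra ℂ L] {v : Fin (N + 1) → L} (hw : IsGeneric w) (hv : ∃ j, v j ≠ 0)
    (h : SameCurve w v) : ∃ (σ : M →ₐ[ℂ] L) (l : L), l ≠ 0 ∧ ∀ i, v i = l * σ (w i) := by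
  classical
  obtain ⟨j, hvj⟩ := hv
  have hj : w j ≠ 0 := by
    intro h0
    apply hvj
    have h1 := (h (X j) 1 (isHomogeneous_X _ _)).1 (by rw [aeval_X, h0])
    rwa [aeval_X] at h1
  let F : MvPolynomial (Fin (N + 1)) ℂ →ₐ[ℂ] M := aeval fun i => w i / w j
  let R : Subalgebra ℂ M := F.range
  have hbR : ∀ i, w i / w j ∈ R := fun i => ⟨X i, by simp [F]⟩
  have hsurj : Function.Surjective F.rangeRestrict := F.rangeRestrict_surjective
  have hker : ∀ p : MvPolynomial (Fin (N + 1)) ℂ, F.rangeRestrict p = 0 →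
      aeval (fun i => v i / v j) p = 0 := by
    intro p hp
    refine rel_of_point h.point hj hvj p ?_
    exact congrArg Subtype.val hp
  let φ : R →ₐ[ℂ] L := AlgHom.liftOfSurjective F.rangeRestrict hsurj
    (aeval fun i => v i / v j) (fun p hp => by
      rw [RingHom.mem_ker] at hp ⊢
      exact hker p hp)
  have hφ : ∀ p : MvPolynomial (Fin (N + 1)) ℂ, φ (F.rangeRestrict p) =
      aeval (fun i => v i / v j) p := fun p =>
    AlgHom.liftOfSurjective_apply _ _ _ _ p
  have hinj : Function.Injective φ := by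
    rw [injective_iff_map_eq_zero]
    intro z hz
    obtain ⟨p, rfl⟩ := hsurj z
    rw [hφ] at hz
    apply Subtype.ext
    exact rel_of_point h.point' hvj hj p hz
  have hR' : R = Algebra.adjoin ℂ (Set.range fun i => w i / w j) := by
    rw [Algebra.adjoin_range_eq_range_aeval]
  have hfr : IsFractionRing R M := .of_field _ _ fun z => by
    have hz : z ∈ IntermediateField.adjoin ℂ (Set.range fun i => w i / w j) := by
      rw [Pool.Agent.Q96.LS.adjoin_fixed hw.2 hj]
      exact IntermediateField.mem_top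
    obtain ⟨x, hx, y, hy, e⟩ := IntermediateField.mem_adjoin_iff_div.mp hz
    rw [← hR'] at hx hy
    exact ⟨⟨x, hx⟩, ⟨y, hy⟩, e⟩
  let σ : M →ₐ[ℂ] L := IsFractionRing.liftAlgHom (g := φ) hinj
  have hσ : ∀ r : R, σ (r : M) = φ r := fun r =>
    IsFractionRing.lift_algebraMap hinj r
  have hσb : ∀ i, σ (w i / w j) = v i / v j := by
    intro i
    have h1 := hφ (X i)
    rw [aeval_X] at h1
    rw [← h1, ← hσ]
    congr 1
    simp [F]
  have hσj : σ (w j) ≠ 0 := (map_ne_zero σ).2 hj
  refine ⟨σ, v j / σ (w j), div_ne_zero hvj hσj, fun i => ?_⟩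
  have h3 := hσb i
  rw [map_div₀] at h3
  field_simp
  field_simp at h3
  linear_combination -h3

/-- the points `w`, `l σ(w)` lie in the same closed subsets -/
theorem sameCurve_of {N : ℕ} {M : Type} [Field M] [Algebra ℂ M] {w : Fin (N + 1) → M} {L : Type}
    [Field L] [Algebra ℂ L] (σ : M →ₐ[ℂ] L) {l : L} (hl : l ≠ 0) {v : Fin (N + 1) → L}
    (hv : ∀ i, v i = l * σ (w i)) : SameCurve w v := by
  intro G E hG
  have h1 : v = fun i => l * (fun i => σ (w i)) i := funext hv
  rw [h1, hom_scale l _ hG, aeval_map_hom]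
  constructor
  · intro h
    rw [h, map_zero, mul_zero]
  · intro h
    have h2 := (mul_eq_zero.1 h).resolve_left (pow_ne_zero _ hl)
    rwa [map_eq_zero] at h2

theorem SameCurve.lies {N : ℕ} {M : Type} [Field M] [Algebra ℂ M] {w : Fin (N + 1) → M} {L : Type}
    [Field L] [Algebra ℂ L] {v : Fin (N + 1) → L} (h : SameCurve w v)
    {D : Set (MvPolynomial (Fin (N + 1)) ℂ)} (hD : ∀ F ∈ D, ∃ E, F.IsHomogeneous E) :
    LiesIn D w ↔ LiesIn D v := by
  constructor
  · intro h1 F hF
    obtain ⟨E, hE⟩ := hD F hF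
    exact (h F E hE).1 (h1 F hF)
  · intro h1 F hF
    obtain ⟨E, hE⟩ := hD F hF
    exact (h F E hE).2 (h1 F hF)

theorem finite_of_ff (F L : Type) [Field F] [Algebra ℂ F] [IsFF ℂ F] [Field L] [Algebra ℂ L]
    [IsFF ℂ L] [Algebra F L] [IsScalarTower ℂ F L] : FiniteDimensional F L := by
  have halg : Algebra.IsAlgebraic F L := Pool.Agent.TH143.GE.alg_of_ff ℂ F L
  have hess : Algebra.EssFiniteType ℂ L := IsFF.ess
  exact finiteDimensional_of

/-- **The curve of a nonconstant point.** -/
theorem exists_curve {N : ℕ} {L : Type} [Field L] [Algebra ℂ L] [IsFF ℂ L] {v : Fin (N + 1) → L}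
    (hv : Nonconst v) : ∃ (M : Type) (_ : Field M) (_ : Algebra ℂ M) (_ : IsFF ℂ M)
      (w : Fin (N + 1) → M), IsGeneric w ∧ SameCurve w v := by
  classical
  let M : IntermediateField ℂ L :=
    IntermediateField.adjoin ℂ {g : L | ∃ i j, v j ≠ 0 ∧ g = v i / v j}
  obtain ⟨i0, j0, hj0, htr⟩ := hv
  have hmem : ∀ i j, v j ≠ 0 → v i / v j ∈ M := fun i j hj =>
    IntermediateField.subset_adjoin _ _ ⟨i, j, hj, rfl⟩
  let w : Fin (N + 1) → M := fun i => ⟨v i / v j0, hmem i j0 hj0⟩
  have hw : ∀ i, ((w i : M) : L) = v i / v j0 := fun i => rfl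
  have hwj : w j0 ≠ 0 := by
    intro h
    have h1 := congrArg Subtype.val h
    rw [hw, div_self hj0] at h1
    exact one_ne_zero h1
  have hgen : IsGeneric w := by
    refine ⟨⟨j0, hwj⟩, ?_⟩
    apply IntermediateField.lift_injective M
    rw [IntermediateField.lift_top, IntermediateField.lift_adjoin]
    refine congrArg (IntermediateField.adjoin ℂ) ?_
    ext g
    constructor
    · rintro ⟨_, ⟨i, j, hj, rfl⟩, rfl⟩
      have hj2 : v j ≠ 0 := by
        intro h
        apply hj
        apply Subtype.ext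
        rw [hw, h, zero_div]
        rfl
      refine ⟨i, j, hj2, ?_⟩
      show (v i / v j0) / (v j / v j0) = _
      field_simp
    · rintro ⟨i, j, hj, rfl⟩
      refine ⟨w i / w j, ⟨i, j, ?_, rfl⟩, ?_⟩
      · intro h
        have h1 := congrArg Subtype.val h
        rw [hw] at h1
        exact div_ne_zero hj hj0 h1
      · show (v i / v j0) / (v j / v j0) = _
        field_simp
  have htrM : Transcendental ℂ (w i0) := by
    intro h
    exact htr (h.algebraMap (A := L))
  have hess : Algebra.EssFiniteType ℂ M := ess_of_adjoin hgen.2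
  have htrdeg : Algebra.trdeg ℂ M = 1 := by
    apply le_antisymm
    · rw [← IsFF.trdeg (k := ℂ) (K := L)]
      exact trdeg_le_of_injective M.val Subtype.val_injective
    · rw [Cardinal.one_le_iff_pos]
      have : Algebra.Transcendental ℂ M := ⟨w i0, htrM⟩
      exact trdeg_pos ℂ M
  refine ⟨M, inferInstance, inferInstance, ⟨hess, htrdeg⟩, w, hgen,
    sameCurve_of M.val (l := v j0) hj0 fun i => ?_⟩
  rw [show M.val (w i) = v i / v j0 from rfl]
  field_simp

/-- **Heights and Euler characteristics of a map to a closed curve.** -/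
theorem curve_map {N : ℕ} {M : Type} [Field M] [Algebra ℂ M] [IsFF ℂ M] {w : Fin (N + 1) → M}
    {L : Type} [Field L] [Algebra ℂ L] [IsFF ℂ L] {v : Fin (N + 1) → L} (hw : IsGeneric w)
    (hv : ∃ j, v j ≠ 0) (h : SameCurve w v) (D : Set (MvPolynomial (Fin (N + 1)) ℂ))
    (hD : ∀ F ∈ D, ∃ E, F.IsHomogeneous E) (hoff : ¬ LiesIn D v) :
    ∃ r : ℕ, 0 < r ∧ pht ℂ v = r * pht ℂ w ∧
      r * eul D w ≤ eul D v := by
  classical
  obtain ⟨σ, l, hl, hvl⟩ := lift_point hw hv h
  let _ : Algebra M L := σ.toRingHom.toAlgebra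
  have htow : IsScalarTower ℂ M L := IsScalarTower.of_algebraMap_eq' σ.comp_algebraMap.symm
  have hmap : ∀ z : M, algebraMap M L z = σ z := fun z => rfl
  have hfd : FiniteDimensional M L := finite_of_ff M L
  have hoffw : ¬ LiesIn D w := fun h1 => hoff ((h.lies hD).1 h1)
  have hv' : v = fun i => l * algebraMap M L (w i) := funext hvl
  have hfw := fin_centre w hw.1 D hD hoffw
  have hfv := fin_centre v hv D hD hoff
  refine ⟨Module.finrank M L, Module.finrank_pos, ?_, ?_⟩
  · conv_lhs => rw [hv']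
    exact pht_ext w hw.1 hl
  · unfold eul
    rw [Set.ncard_eq_toFinset_card _ hfw, Set.ncard_eq_toFinset_card _ hfv]
    refine hurwitz _ _ fun P => ?_
    rw [Set.Finite.mem_toFinset, Set.Finite.mem_toFinset, Set.mem_ofPred_eq, Set.mem_ofPred_eq]
    conv_lhs => rw [hv']
    exact centre_ext D w hw.1 hl P

end Pool.Agent.Q96.HE
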