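import Pool.Agent.TH143.GE.Wei

/-!
Function fields of canonical degree zero: the equation of Weierstrass, with a given point at
infinity. (The proofs are those of `Pool/Agent/TH143/GE/Wei.lean`, where the point is not given.)
-/

set_option autoImplicit false
set_option linter.overlappingInstances false
set_option linter.unusedSectionVars false

namespace Pool.Agent.Q96.HE

open FF Pool.Agent.W603.LV Module Pool.Agent.W619.PQ IntermediateField Pool.Agent.TH143.GE

section

variable {k F : Type} [Field k] [Field F] [Algebra k F] [CharZero k] [IsFF k F] [IsAlgClosed k]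

theorem exists_relation' (h0 : canDeg k F = 0) (P : Place k F) : ∃ (X Y : F) (c1 c2 c3 c4 c5 c6 : k),
    X ≠ 0 ∧ Y ≠ 0 ∧ P.ord X = -2 ∧ P.ord Y = -3 ∧ (∀ Q : Place k F, Q ≠ P → 0 ≤ Q.ord X) ∧
    (∀ Q : Place k F, Q ≠ P → 0 ≤ Q.ord Y) ∧ c1 ≠ 0 ∧
    Y ^ 2 = algebraMap k F c1 * X ^ 3 + algebraMap k F c2 * (X * Y) + algebraMap k F c3 * X ^ 2 +
      algebraMap k F c4 * Y + algebraMap k F c5 * X + algebraMap k F c6 := by
  obtain ⟨X, hX0, hX, hXr⟩ := exists_one_pole h0 P (n := 2) le_rfl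
  obtain ⟨Y, hY0, hY, hYr⟩ := exists_one_pole h0 P (n := 3) (by norm_num)
  push_cast at hX hY
  have hX3 : P.ord (X ^ 3) = -6 := by rw [P.ord_pow, hX]; norm_num
  have hX2 : P.ord (X ^ 2) = -4 := by rw [P.ord_pow, hX]; norm_num
  have hXY : P.ord (X * Y) = -5 := by rw [P.ord_mul hX0 hY0, hX, hY]; norm_num
  have hY2 : P.ord (Y ^ 2) = -6 := by rw [P.ord_pow, hY]; norm_num
  obtain ⟨c1, h1⟩ := step_down (P := P) (f := Y ^ 2) (g := X ^ 3) (n := -6) (Or.inr hY2.ge)
    (pow_ne_zero _ hX0) hX3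
  obtain ⟨c2, h2⟩ := step_down (P := P) (g := X * Y) (n := -5) (h1.mono (by norm_num)) (mul_ne_zero hX0 hY0) hXY
  obtain ⟨c3, h3⟩ := step_down (P := P) (g := X ^ 2) (n := -4) (h2.mono (by norm_num)) (pow_ne_zero _ hX0) hX2
  obtain ⟨c4, h4⟩ := step_down (P := P) (g := Y) (n := -3) (h3.mono (by norm_num)) hY0 hY
  obtain ⟨c5, h5⟩ := step_down (P := P) (g := X) (n := -2) (h4.mono (by norm_num)) hX0 hX
  set R : F := Y ^ 2 - algebraMap k F c1 * X ^ 3 - algebraMap k F c2 * (X * Y) -
    algebraMap k F c3 * X ^ 2 - algebraMap k F c4 * Y - algebraMap k F c5 * X with hR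
  have hreg : ∀ Q : Place k F, Q ≠ P → Ge Q 0 R := by
    intro Q hQ
    have hXQ : Ge Q 0 X := Or.inr (hXr Q hQ)
    have hYQ : Ge Q 0 Y := Or.inr (hYr Q hQ)
    have hp : ∀ {f g : F}, Ge Q 0 f → Ge Q 0 g → Ge Q 0 (f * g) := by
      intro f g hf hg
      have := hf.mul hg
      rwa [zero_add] at this
    have hX2Q : Ge Q 0 (X ^ 2) := by rw [pow_two]; exact hp hXQ hXQ
    have hX3Q : Ge Q 0 (X ^ 3) := by rw [pow_succ]; exact hp hX2Q hXQ
    have hY2Q : Ge Q 0 (Y ^ 2) := by rw [pow_two]; exact hp hYQ hYQ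
    exact ((((hY2Q.sub (hp (Ge.const c1) hX3Q)).sub (hp (Ge.const c2) (hp hXQ hYQ))).sub
      (hp (Ge.const c3) hX2Q)).sub (hp (Ge.const c4) hYQ)).sub (hp (Ge.const c5) hXQ)
  have hconst : ∃ c6 : k, R = algebraMap k F c6 := by
    by_cases hR0 : R = 0
    · exact ⟨0, by rw [hR0, map_zero]⟩
    have h6 : -1 ≤ P.ord R := by
      have h7 := h5.resolve_left hR0
      have h8 : (-2 : ℤ) + 1 = -1 := by norm_num
      rwa [h8] at h7
    have h7 : P.ord R ≠ -1 := by
      intro h7
      exact not_rational h0 (rational_of_simple h7 fun Q hQ => (hreg Q hQ).resolve_left hR0)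
    refine const_of_ord fun Q => ?_
    by_cases hQ : Q = P
    · rw [hQ]
      omega
    · exact (hreg Q hQ).resolve_left hR0
  obtain ⟨c6, hc6⟩ := hconst
  refine ⟨X, Y, c1, c2, c3, c4, c5, c6, hX0, hY0, hX, hY, hXr, hYr, ?_, ?_⟩
  · rintro rfl
    rw [map_zero, zero_mul, sub_zero] at h1
    have h9 := h1.resolve_left (pow_ne_zero _ hY0)
    rw [hY2] at h9
    norm_num at h9
  · rw [← hc6, hR]
    ring

/-- the coordinates of Weierstrass -/
theorem exists_short' (h0 : canDeg k F = 0) (P : Place k F) : ∃ (x y : F) (a b : k),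
    x ≠ 0 ∧ y ≠ 0 ∧ P.ord x = -2 ∧ P.ord y = -3 ∧ (∀ Q : Place k F, Q ≠ P → 0 ≤ Q.ord x) ∧
    y ^ 2 = x ^ 3 + algebraMap k F a * x + algebraMap k F b := by
  obtain ⟨X, Y, c1, c2, c3, c4, c5, c6, hX0, hY0, hX, hY, hXr, hYr, hc1, hrel⟩ :=
    exists_relation' h0 P
  obtain ⟨γ, hγ⟩ := IsAlgClosed.exists_pow_nat_eq c1 (n := 3) (by norm_num)
  have hγ0 : γ ≠ 0 := by
    rintro rfl
    apply hc1
    rw [← hγ]
    norm_num
  set d2 : k := c3 + c2 ^ 2 / 4 with hd2
  set d1 : k := c5 + c2 * c4 / 2 with hd1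
  set d0 : k := c6 + c4 ^ 2 / 4 with hd0
  set δ : k := d2 / (3 * γ ^ 2) with hδ
  have hγF : algebraMap k F γ ≠ 0 := by rwa [Ne, map_eq_zero]
  have hordγ : ∀ Q : Place k F, Q.ord (algebraMap k F γ) = 0 := fun Q =>
    Q.ord_eq_zero_of_isAlgebraic hγF (isAlgebraic_algebraMap γ)
  -- the orders
  have hx1 : algebraMap k F γ * X + algebraMap k F δ ≠ 0 ∧
      P.ord (algebraMap k F γ * X + algebraMap k F δ) = -2 := by
    apply ord_of_sub (v := algebraMap k F γ * X) (mul_ne_zero hγF hX0)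
    · rw [P.ord_mul hγF hX0, hordγ, hX]
      norm_num
    · rw [add_sub_cancel_left]
      exact (Ge.const δ).mono (by norm_num)
  have hy1 : Y - (algebraMap k F (c2 / 2) * X + algebraMap k F (c4 / 2)) ≠ 0 ∧
      P.ord (Y - (algebraMap k F (c2 / 2) * X + algebraMap k F (c4 / 2))) = -3 := by
    apply ord_of_sub (v := Y) hY0 hY
    have h1 : Y - (algebraMap k F (c2 / 2) * X + algebraMap k F (c4 / 2)) - Y =
        -(algebraMap k F (c2 / 2) * X + algebraMap k F (c4 / 2)) := by ring
    rw [h1]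
    apply Ge.neg
    have h2 := (Ge.const (P := P) (c2 / 2)).mul (Or.inr hX.ge : Ge P (-2) X)
    have h3 : Ge P (-2) (algebraMap k F (c4 / 2)) := (Ge.const (c4 / 2)).mono (by norm_num)
    rw [zero_add] at h2
    exact (h2.add h3).mono (by norm_num)
  refine ⟨_, _, 3 * δ ^ 2 - 2 * δ * d2 / γ ^ 2 + d1 / γ,
    -δ ^ 3 + d2 * δ ^ 2 / γ ^ 2 - d1 * δ / γ + d0, hx1.1, hy1.1, hx1.2, hy1.2, fun Q hQ => ?_, ?_⟩
  · have h1 := (Ge.const (P := Q) γ).mul (Or.inr (hXr Q hQ) : Ge Q 0 X)
    rw [zero_add] at h1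
    exact (h1.add (Ge.const δ)).resolve_left hx1.1
  · have hδ' : 3 * γ ^ 2 * δ = d2 := by
      rw [hδ]
      field_simp
    have m2 : algebraMap k F 2 = 2 := map_ofNat _ 2
    have m3 : algebraMap k F 3 = 3 := map_ofNat _ 3
    have m4 : algebraMap k F 4 = 4 := map_ofNat _ 4
    have e1 : (algebraMap k F γ) ^ 3 = algebraMap k F c1 := by rw [← map_pow, hγ]
    have e2 : 3 * (algebraMap k F γ) ^ 2 * algebraMap k F δ = algebraMap k F d2 := by
      rw [← hδ', map_mul, map_mul, map_pow, m3]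
    have e3 : algebraMap k F d2 = algebraMap k F c3 + (algebraMap k F c2) ^ 2 / 4 := by
      rw [hd2, map_add, map_div₀, map_pow, m4]
    have e4 : algebraMap k F d1 = algebraMap k F c5 +
        algebraMap k F c2 * algebraMap k F c4 / 2 := by
      rw [hd1, map_add, map_div₀, map_mul, m2]
    have e5 : algebraMap k F d0 = algebraMap k F c6 + (algebraMap k F c4) ^ 2 / 4 := by
      rw [hd0, map_add, map_div₀, map_pow, m4]
    have e6 : algebraMap k F (3 * δ ^ 2 - 2 * δ * d2 / γ ^ 2 + d1 / γ) =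
        3 * algebraMap k F δ ^ 2 - 2 * algebraMap k F δ * algebraMap k F d2 /
          algebraMap k F γ ^ 2 + algebraMap k F d1 / algebraMap k F γ := by
      simp only [map_add, map_sub, map_mul, map_div₀, map_pow, m2, m3]
    have e7 : algebraMap k F (-δ ^ 3 + d2 * δ ^ 2 / γ ^ 2 - d1 * δ / γ + d0) =
        -algebraMap k F δ ^ 3 + algebraMap k F d2 * algebraMap k F δ ^ 2 /
          algebraMap k F γ ^ 2 - algebraMap k F d1 * algebraMap k F δ / algebraMap k F γ +
          algebraMap k F d0 := by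
      simp only [map_add, map_sub, map_neg, map_mul, map_div₀, map_pow]
    have e8 : algebraMap k F (c2 / 2) = algebraMap k F c2 / 2 := by rw [map_div₀, m2]
    have e9 : algebraMap k F (c4 / 2) = algebraMap k F c4 / 2 := by rw [map_div₀, m2]
    rw [e6, e7, e8, e9]
    generalize algebraMap k F γ = g at *
    generalize algebraMap k F δ = t at *
    generalize algebraMap k F d2 = D2 at *
    generalize algebraMap k F d1 = D1 at *
    generalize algebraMap k F d0 = D0 at *
    generalize algebraMap k F c1 = C1 at *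
    generalize algebraMap k F c2 = C2 at *
    generalize algebraMap k F c3 = C3 at *
    generalize algebraMap k F c4 = C4 at *
    generalize algebraMap k F c5 = C5 at *
    generalize algebraMap k F c6 = C6 at *
    subst e1
    have f3 : C3 = 3 * g ^ 2 * t - C2 ^ 2 / 4 := by rw [e2, e3]; ring
    have f5 : C5 = D1 - C2 * C4 / 2 := by rw [e4]; ring
    have f6 : C6 = D0 - C4 ^ 2 / 4 := by rw [e5]; ring
    have hch : CharZero F := charZero_of_injective_algebraMap (algebraMap k F).injective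
    have s1 : 2 * t * D2 / g ^ 2 = 6 * t ^ 2 := by
      rw [← e2, div_eq_iff (pow_ne_zero _ hγF)]
      ring
    have s2 : D2 * t ^ 2 / g ^ 2 = 3 * t ^ 3 := by
      rw [← e2, div_eq_iff (pow_ne_zero _ hγF)]
      ring
    have s3 : D1 * t / g = D1 / g * t := by ring
    have s4 : D1 = D1 / g * g := by
      rw [div_mul_cancel₀ _ hγF]
    rw [s1, s2, s3]
    generalize D1 / g = w at *
    subst s4
    rw [f3, f5, f6] at hrel
    linear_combination hrel

/-- **The equation of Weierstrass** for function fields of canonical degree zero. -/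
theorem weier' (h0 : canDeg k F = 0) (P : Place k F) : ∃ (x y : F) (a b : k),
    (x ≠ 0 ∧ y ≠ 0 ∧ P.ord x = -2 ∧ P.ord y = -3 ∧ ∀ Q : Place k F, Q ≠ P → 0 ≤ Q.ord x) ∧
    Transcendental k x ∧ y ^ 2 = x ^ 3 + algebraMap k F a * x + algebraMap k F b ∧
    (∀ A B : Polynomial k, Polynomial.aeval x A + Polynomial.aeval x B * y = 0 → A = 0 ∧ B = 0) ∧
    (∀ f : F, ∃ r s : MvPolynomial (Fin 2) k,
      f = MvPolynomial.aeval ![x, y] r / MvPolynomial.aeval ![x, y] s) ∧
    (∀ e : k, e ^ 3 + a * e + b = 0 → 3 * e ^ 2 + a ≠ 0) := by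
  obtain ⟨x, y, a, b, hx0, hy0, hx, hy, hxr, hrel⟩ := exists_short' h0 P
  have hxt : Transcendental k x := P.transcendental_of_ord_ne (by omega)
  have hfr := finrank_one_pole (P := P) (x := x) (n := 2) two_ne_zero (by rw [hx]; norm_num) hxr
  have hind : ∀ A B : Polynomial k, Polynomial.aeval x A + Polynomial.aeval x B * y = 0 →
      A = 0 ∧ B = 0 := fun A B h => indep hx hy0 hy h
  have hynot : y ∉ k⟮x⟯ := by
    intro hmem
    obtain ⟨r, s, hrs⟩ := (IntermediateField.mem_adjoin_simple_iff k y).1 hmem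
    by_cases hs : Polynomial.aeval x s = 0
    · rw [hs, div_zero] at hrs
      exact hy0 hrs
    · have h1 := (hind (-r) s (by
        rw [hrs, map_neg]
        field_simp
        ring)).2
      rw [h1, map_zero] at hs
      exact hs rfl
  have htop : k⟮x⟯⟮y⟯ = ⊤ := by
    have h1 : Nat.Prime (Module.finrank k⟮x⟯ F) := by rw [hfr]; exact Nat.prime_two
    have h2 := IntermediateField.isSimpleOrder_of_finrank_prime k⟮x⟯ F h1
    rcases h2.eq_bot_or_eq_top k⟮x⟯⟮y⟯ with h3 | h3
    · exfalso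
      have h4 : y ∈ k⟮x⟯⟮y⟯ := IntermediateField.mem_adjoin_simple_self _ y
      rw [h3, IntermediateField.mem_bot] at h4
      obtain ⟨z, hz⟩ := h4
      apply hynot
      rw [← hz]
      exact z.2
    · exact h3
  have htop2 : IntermediateField.adjoin k {x, y} = ⊤ := by
    rw [← IntermediateField.adjoin_simple_adjoin_simple, htop]
    exact IntermediateField.restrictScalars_top
  refine ⟨x, y, a, b, ⟨hx0, hy0, hx, hy, hxr⟩, hxt, hrel, hind, fun f => ?_, fun e he h3 => ?_⟩
  · have h1 : f ∈ IntermediateField.adjoin k (Set.range ![x, y]) := by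
      rw [Matrix.range_cons, Matrix.range_cons, Matrix.range_empty, Set.union_empty,
        Set.singleton_union, htop2]
      exact IntermediateField.mem_top
    exact (IntermediateField.mem_adjoin_range_iff k ![x, y] f).1 h1
  · -- the singular case
    set E := algebraMap k F e with hE
    have hA : algebraMap k F a = -3 * E ^ 2 := by
      have h4 : a = -3 * e ^ 2 := by linear_combination h3
      rw [h4, map_mul, map_neg, map_pow, map_ofNat]
    have hb : algebraMap k F b = 2 * E ^ 3 := by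
      have h4 : a = -3 * e ^ 2 := by linear_combination h3
      have h5 : b = 2 * e ^ 3 := by
        rw [h4] at he
        linear_combination he
      rw [h5, map_mul, map_pow, map_ofNat]
    have hfac : y ^ 2 = (x - E) ^ 2 * (x + 2 * E) := by
      rw [hrel, hA, hb]
      ring
    have hxE : x - E ≠ 0 := sub_const_ne hxt e
    set t := y / (x - E) with ht
    have ht2 : t ^ 2 = x + 2 * E := by
      rw [ht, div_pow, hfac, mul_comm, mul_div_assoc, div_self (pow_ne_zero _ hxE), mul_one]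
    apply not_rational h0
    refine ⟨t, ?_⟩
    have htm : t ∈ k⟮t⟯ := IntermediateField.mem_adjoin_simple_self _ t
    have hEm : E ∈ k⟮t⟯ := IntermediateField.algebraMap_mem _ e
    have hxm : x ∈ k⟮t⟯ := by
      have h4 : x = t ^ 2 - 2 * E := by rw [ht2]; ring
      rw [h4]
      exact sub_mem (pow_mem htm 2) (mul_mem (by
        have := IntermediateField.algebraMap_mem k⟮t⟯ (2 : k)
        rwa [map_ofNat] at this) hEm)
    have hym : y ∈ k⟮t⟯ := by
      have h4 : y = t * (x - E) := by rw [ht, div_mul_cancel₀ _ hxE]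
      rw [h4]
      exact mul_mem htm (sub_mem hxm hEm)
    rw [eq_top_iff, ← htop2, IntermediateField.adjoin_le_iff]
    rintro z (rfl | hz)
    · exact hxm
    · rw [Set.mem_singleton_iff.1 hz]
      exact hym

end

end Pool.Agent.Q96.HE
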