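import Pool.Agent.Q96.HE.Curve
import Pool.Agent.Q96.HE.WeiP
import Pool.Agent.TH143.GE.Emb
import Pool.Agent.TH152.OC.Gm

/-!
Endomorphisms of degree at least two of the curves of genus `≤ 1`, with a given fixed point.
-/

set_option autoImplicit false

namespace Pool.Agent.Q96.HE

open MvPolynomial FF Pool.Agent.W603.LV Pool.Agent.W603.PV Pool.Agent.Q271.RC Pool.Agent.Q96.LS
open Pool.Agent.TH143.GE

/-- degree of a map of curves -/
theorem deg_hom {F L : Type} [Field F] [Algebra ℂ F] [IsFF ℂ F] [Field L] [Algebra ℂ L] [IsFF ℂ L]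
    (σ : F →ₐ[ℂ] L) : ∃ r : ℕ, 0 < r ∧ (∀ f, hgt ℂ (σ f) = r * hgt ℂ f) ∧
      (∀ (N : ℕ) (v : Fin (N + 1) → F), (∃ j, v j ≠ 0) →
        pht ℂ (fun i => σ (v i)) = r * pht ℂ v) ∧
      ∀ P : Place ℂ L, ∃ (P0 : Place ℂ F) (e : ℕ), 0 < e ∧ ∀ f, P.ord (σ f) = e * P0.ord f := by
  let _ : Algebra F L := σ.toRingHom.toAlgebra
  have htow : IsScalarTower ℂ F L := IsScalarTower.of_algebraMap_eq' σ.comp_algebraMap.symm
  have hmap : ∀ z : F, algebraMap F L z = σ z := fun z => rfl
  have hfd : FiniteDimensional F L := finite_of_ff F L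
  refine ⟨Module.finrank F L, Module.finrank_pos, fun f => ?_, fun N v hv => ?_, fun P => ?_⟩
  · rw [← hmap]
    exact hgt_algebraMap f
  · have h1 := pht_ext (F := F) (L := L) v hv (l := 1) one_ne_zero
    simp only [one_mul] at h1
    exact h1
  · exact ⟨under F P, ram F P, (ram_spec (F := F) P).1, fun f => ord_under P f⟩

/-- rational curves -/
theorem endo_rat {L : Type} [Field L] [Algebra ℂ L] [IsFF ℂ L] (h : canDeg ℂ L < 0)
    (P : Place ℂ L) : ∃ (σ : L →ₐ[ℂ] L) (e r : ℕ), 0 < e ∧ (∀ f, P.ord (σ f) = e * P.ord f) ∧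
      2 ≤ r ∧ ∀ (N : ℕ) (v : Fin (N + 1) → L), (∃ j, v j ≠ 0) →
        pht ℂ (fun i => σ (v i)) = r * pht ℂ v := by
  classical
  obtain ⟨t0, ht0⟩ := rational_of_neg (k := ℂ) (K := L) h
  obtain ⟨t, ht, htP⟩ : ∃ t : L, IntermediateField.adjoin ℂ {t} = ⊤ ∧ 0 < P.ord t := by
    by_cases hneg : P.ord t0 < 0
    · refine ⟨t0⁻¹, ?_, by rw [P.ord_inv]; omega⟩
      rw [eq_top_iff, ← ht0, IntermediateField.adjoin_le_iff, Set.singleton_subset_iff]
      have h1 := (IntermediateField.adjoin ℂ {t0⁻¹}).inv_mem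
        (IntermediateField.mem_adjoin_simple_self ℂ t0⁻¹)
      rwa [inv_inv] at h1
    · obtain ⟨c, hc⟩ := exists_const P (f := t0) (by
        by_cases h0 : t0 = 0
        · exact Or.inl h0
        · exact Or.inr (not_lt.1 hneg))
      have htr0 : t0 - algebraMap ℂ L c ≠ 0 := by
        intro h0
        obtain ⟨z, hz⟩ := IsFF.exists_transcendental (k := ℂ) (K := L)
        apply hz
        have h1 : z ∈ (⊤ : IntermediateField ℂ L) := IntermediateField.mem_top
        rw [← ht0, IntermediateField.mem_adjoin_simple_iff] at h1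
        obtain ⟨r, s, hrs⟩ := h1
        rw [hrs, sub_eq_zero.1 h0, Polynomial.aeval_algebraMap_apply,
          Polynomial.aeval_algebraMap_apply, div_eq_mul_inv]
        exact (isAlgebraic_algebraMap _).mul (isAlgebraic_algebraMap _).inv
      refine ⟨t0 - algebraMap ℂ L c, ?_, by have := hc.resolve_left htr0; omega⟩
      rw [eq_top_iff, ← ht0, IntermediateField.adjoin_le_iff, Set.singleton_subset_iff]
      have h1 := add_mem (IntermediateField.mem_adjoin_simple_self ℂ (t0 - algebraMap ℂ L c))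
        ((IntermediateField.adjoin ℂ {t0 - algebraMap ℂ L c}).algebraMap_mem c)
      rwa [sub_add_cancel] at h1
  have httr : Transcendental ℂ t := P.transcendental_of_ord_ne (by omega)
  have ht2 : Transcendental ℂ (t ^ 2) := P.transcendental_of_ord_ne (by rw [P.ord_pow]; omega)
  have ht0' : t ≠ 0 := by
    rintro rfl
    rw [P.ord_zero] at htP
    omega
  have hfr : hgt ℂ t = 1 := by
    rw [hgt_eq_finrank httr, ht]
    norm_num
  -- the endomorphism
  have hgen : IsGeneric (![1, t] : Fin 2 → L) := by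
    refine ⟨⟨0, one_ne_zero⟩, ?_⟩
    rw [eq_top_iff, ← ht, IntermediateField.adjoin_le_iff, Set.singleton_subset_iff]
    refine IntermediateField.subset_adjoin _ _ ⟨1, 0, one_ne_zero, ?_⟩
    simp
  have hsame : SameCurve (![1, t] : Fin 2 → L) (![1, t ^ 2] : Fin 2 → L) := by
    intro G E hG
    have key : ∀ s : L, Transcendental ℂ s → (aeval (![1, s] : Fin 2 → L) G = 0 ↔
        aeval (![1, Polynomial.X] : Fin 2 → Polynomial ℂ) G = 0) := by
      intro s hs
      have h1 : aeval (![1, s] : Fin 2 → L) G =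
          Polynomial.aeval s (aeval (![1, Polynomial.X] : Fin 2 → Polynomial ℂ) G) := by
        have h2 : (aeval (![1, s] : Fin 2 → L) : MvPolynomial (Fin 2) ℂ →ₐ[ℂ] L) =
            (Polynomial.aeval s).comp (aeval (![1, Polynomial.X] : Fin 2 → Polynomial ℂ)) := by
          apply MvPolynomial.algHom_ext
          intro i
          fin_cases i <;> simp
        rw [h2]
        rfl
      rw [h1]
      constructor
      · intro h3
        by_contra h4
        exact hs ⟨_, h4, h3⟩
      · intro h3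
        rw [h3, map_zero]
    rw [key t httr, key (t ^ 2) ht2]
  obtain ⟨σ, l, hl, hσ⟩ := lift_point hgen ⟨0, one_ne_zero⟩ hsame
  have hl1 : l = 1 := by
    have := hσ 0
    simp only [Matrix.cons_val_zero, map_one, mul_one] at this
    exact this.symm
  have hσt : σ t = t ^ 2 := by
    have := hσ 1
    simp only [Matrix.cons_val_one, Matrix.cons_val_fin_one, hl1, one_mul] at this
    exact this.symm
  obtain ⟨r, hr, hr1, hr2, hr3⟩ := deg_hom σ
  obtain ⟨P0, e, he, hP0⟩ := hr3 P
  have hP0t : 0 < P0.ord t := by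
    have h1 := hP0 t
    rw [hσt, P.ord_pow] at h1
    by_contra hcon
    rw [not_lt] at hcon
    have h2 := mul_nonpos_of_nonneg_of_nonpos (Int.natCast_nonneg e) hcon
    push_cast at h1
    omega
  have hPP : P0 = P := by
    refine Pool.Agent.TH152.OC.pole_unique (g := t⁻¹) (by rw [hgt_inv, hfr]) ?_ ?_
    · rw [P0.ord_inv]
      omega
    · rw [P.ord_inv]
      omega
  rw [hPP] at hP0
  refine ⟨σ, e, r, he, hP0, ?_, hr2⟩
  have h1 := hr1 t
  rw [hσt, hgt_pow ht0', hfr] at h1
  push_cast at h1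
  omega

/-- elliptic curves -/
theorem endo_ell {L : Type} [Field L] [Algebra ℂ L] [IsFF ℂ L] (h : canDeg ℂ L = 0)
    (P : Place ℂ L) : ∃ (σ : L →ₐ[ℂ] L) (e r : ℕ), 0 < e ∧ (∀ f, P.ord (σ f) = e * P.ord f) ∧
      2 ≤ r ∧ ∀ (N : ℕ) (v : Fin (N + 1) → L), (∃ j, v j ≠ 0) →
        pht ℂ (fun i => σ (v i)) = r * pht ℂ v := by
  classical
  obtain ⟨x, y, a, b, ⟨hx0, hy0, hx, hy, hxr⟩, hxt, hrel, hind, hgen, hns⟩ := weier' h P
  have hch : CharZero L := charZero_of_injective_algebraMap (algebraMap ℂ L).injective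
  set A : L := algebraMap ℂ L a with hA
  set B : L := algebraMap ℂ L b with hB
  set NX : L := x ^ 4 - 2 * A * x ^ 2 - 8 * B * x + A ^ 2 with hNX
  set NY : L := x ^ 6 + 5 * A * x ^ 4 + 20 * B * x ^ 3 - 5 * A ^ 2 * x ^ 2 - 4 * A * B * x -
    8 * B ^ 2 - A ^ 3 with hNY
  set X2 : L := NX / (4 * y ^ 2) with hX2
  set Y2 : L := NY / (8 * y ^ 3) with hY2
  have hd1 : 4 * y ^ 2 ≠ 0 := mul_ne_zero (by norm_num) (pow_ne_zero _ hy0)
  have hd2 : 8 * y ^ 3 ≠ 0 := mul_ne_zero (by norm_num) (pow_ne_zero _ hy0)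
  have e1 : X2 * (4 * y ^ 2) = NX := div_mul_cancel₀ _ hd1
  have e2 : Y2 * (8 * y ^ 3) = NY := div_mul_cancel₀ _ hd2
  have hrel2 : Y2 ^ 2 = X2 ^ 3 + A * X2 + B := by
    have h5 : NY ^ 2 = NX ^ 3 + 16 * A * NX * (y ^ 2) ^ 2 + 64 * B * (y ^ 2) ^ 3 := by
      rw [hNX, hNY, hrel]
      ring
    have h6 : (64 : L) * y ^ 6 ≠ 0 := mul_ne_zero (by norm_num) (pow_ne_zero _ hy0)
    apply mul_right_cancel₀ h6
    linear_combination (Y2 * (8 * y ^ 3) + NY) * e2 - ((X2 * (4 * y ^ 2)) ^ 2 +
      X2 * (4 * y ^ 2) * NX + NX ^ 2) * e1 - 16 * A * y ^ 4 * e1 + h5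
  clear_value NY Y2
  -- orders at `P`
  have hNXp : Polynomial.aeval x (Polynomial.X ^ 4 - 2 * Polynomial.C a * Polynomial.X ^ 2 -
      8 * Polynomial.C b * Polynomial.X + Polynomial.C a ^ 2 : Polynomial ℂ) = NX := by
    simp only [map_add, map_sub, map_mul, map_pow, Polynomial.aeval_X, Polynomial.aeval_C,
      map_ofNat, hNX, hA, hB]
  have hord4 : P.ord (4 : L) = 0 := by
    have := P.ord_const (c := (4 : ℂ)) (by norm_num)
    rwa [map_ofNat] at this
  have hNXP : NX ≠ 0 ∧ P.ord NX = -8 := by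
    have hdeg : (Polynomial.X ^ 4 - 2 * Polynomial.C a * Polynomial.X ^ 2 -
        8 * Polynomial.C b * Polynomial.X + Polynomial.C a ^ 2 : Polynomial ℂ).natDegree = 4 := by
      compute_degree!
    have hne : (Polynomial.X ^ 4 - 2 * Polynomial.C a * Polynomial.X ^ 2 -
        8 * Polynomial.C b * Polynomial.X + Polynomial.C a ^ 2 : Polynomial ℂ) ≠ 0 := by
      intro h0
      rw [h0, Polynomial.natDegree_zero] at hdeg
      omega
    obtain ⟨h1, h2⟩ := Pool.Agent.W619.PQ.ord_aeval_of_neg (x := x) P (by omega) hne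
    rw [hNXp, hdeg, hx] at h2
    rw [hNXp] at h1
    exact ⟨h1, by rw [h2]; norm_num⟩
  have hX20 : X2 ≠ 0 := div_ne_zero hNXP.1 hd1
  have hX2P : P.ord X2 = -2 := by
    rw [hX2, P.ord_div hNXP.1 hd1, hNXP.2, P.ord_mul (by norm_num) (pow_ne_zero _ hy0), hord4,
      P.ord_pow, hy]
    norm_num
  have hX2t : Transcendental ℂ X2 := P.transcendental_of_ord_ne (by omega)
  -- independence
  have hind2 : ∀ C D : Polynomial ℂ, Polynomial.aeval X2 C + Polynomial.aeval X2 D * Y2 = 0 →
      C = 0 ∧ D = 0 := by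
    intro C D hCD
    have h1 : Polynomial.aeval X2 (C ^ 2 - D ^ 2 * (Polynomial.X ^ 3 +
        Polynomial.C a * Polynomial.X + Polynomial.C b)) = 0 := by
      simp only [map_add, map_sub, map_mul, map_pow, Polynomial.aeval_X, Polynomial.aeval_C]
      linear_combination (Polynomial.aeval X2 C - Polynomial.aeval X2 D * Y2) * hCD +
        Polynomial.aeval X2 D ^ 2 * hrel2
    have h2 : C ^ 2 - D ^ 2 * (Polynomial.X ^ 3 + Polynomial.C a * Polynomial.X +
        Polynomial.C b) = 0 := by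
      by_contra hne
      exact hX2t ⟨_, hne, h1⟩
    have h3 := congrArg (Polynomial.aeval x) h2
    simp only [map_add, map_sub, map_mul, map_pow, Polynomial.aeval_X, Polynomial.aeval_C,
      map_zero] at h3
    rw [← hA, ← hB, ← hrel] at h3
    have h4 : (Polynomial.aeval x C + Polynomial.aeval x D * y) *
        (Polynomial.aeval x C - Polynomial.aeval x D * y) = 0 := by
      linear_combination h3
    rcases mul_eq_zero.1 h4 with h5 | h5
    · exact hind C D h5
    · have h6 := hind C (-D) (by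
        rw [map_neg]
        linear_combination h5)
      exact ⟨h6.1, neg_eq_zero.1 h6.2⟩
  -- the endomorphism
  have hgen3 : IsGeneric (![1, x, y] : Fin 3 → L) := by
    refine ⟨⟨0, one_ne_zero⟩, ?_⟩
    rw [eq_top_iff]
    intro f _
    obtain ⟨r, s, hf⟩ := hgen f
    have hx' : x ∈ IntermediateField.adjoin ℂ {g : L | ∃ i j, (![1, x, y] : Fin 3 → L) j ≠ 0 ∧
        g = (![1, x, y] : Fin 3 → L) i / (![1, x, y] : Fin 3 → L) j} := by
      refine IntermediateField.subset_adjoin _ _ ⟨1, 0, one_ne_zero, ?_⟩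
      simp
    have hy' : y ∈ IntermediateField.adjoin ℂ {g : L | ∃ i j, (![1, x, y] : Fin 3 → L) j ≠ 0 ∧
        g = (![1, x, y] : Fin 3 → L) i / (![1, x, y] : Fin 3 → L) j} := by
      refine IntermediateField.subset_adjoin _ _ ⟨2, 0, one_ne_zero, ?_⟩
      simp
    have hmem : ∀ p : MvPolynomial (Fin 2) ℂ, aeval ![x, y] p ∈
        IntermediateField.adjoin ℂ {g : L | ∃ i j, (![1, x, y] : Fin 3 → L) j ≠ 0 ∧
        g = (![1, x, y] : Fin 3 → L) i / (![1, x, y] : Fin 3 → L) j} := by
      intro p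
      induction p using MvPolynomial.induction_on with
      | C c =>
        rw [← algebraMap_eq, AlgHom.commutes]
        exact IntermediateField.algebraMap_mem _ c
      | add p q hp hq =>
        rw [map_add]
        exact add_mem hp hq
      | mul_X p i hp =>
        rw [map_mul, aeval_X]
        refine mul_mem hp ?_
        fin_cases i
        · exact hx'
        · exact hy'
    rw [hf]
    exact div_mem (hmem r) (hmem s)
  have hsame : SameCurve (![1, x, y] : Fin 3 → L) (![1, X2, Y2] : Fin 3 → L) := by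
    intro G E hG
    have key : ∀ u v : L, aeval (![1, u, v] : Fin 3 → L) G =
        aeval (![u, v] : Fin 2 → L) (aeval (![1, X 0, X 1] : Fin 3 → MvPolynomial (Fin 2) ℂ) G) := by
      intro u v
      have h2 : (aeval (![1, u, v] : Fin 3 → L) : MvPolynomial (Fin 3) ℂ →ₐ[ℂ] L) =
          (aeval (![u, v] : Fin 2 → L)).comp
            (aeval (![1, X 0, X 1] : Fin 3 → MvPolynomial (Fin 2) ℂ)) := by
        apply MvPolynomial.algHom_ext
        intro i
        fin_cases i <;> simp
      rw [h2]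
      rfl
    rw [key, key]
    constructor
    · intro h1
      exact van hrel hind h1 hrel2
    · intro h1
      exact van hrel2 hind2 h1 hrel
  obtain ⟨σ, l, hl, hσ⟩ := lift_point hgen3 ⟨0, one_ne_zero⟩ hsame
  have hl1 : l = 1 := by
    have := hσ 0
    simp only [Matrix.cons_val_zero, map_one, mul_one] at this
    exact this.symm
  have hσx : σ x = X2 := by
    have := hσ 1
    simp only [Matrix.cons_val_one, hl1, one_mul] at this
    exact this.symm
  obtain ⟨r, hr, hr1, hr2, hr3⟩ := deg_hom σ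
  obtain ⟨P0, e, he, hP0⟩ := hr3 P
  have hPP : P0 = P := by
    by_contra hne
    have h1 := hxr P0 hne
    have h2 := hP0 x
    rw [hσx, hX2P] at h2
    have h3 := mul_nonneg (Int.natCast_nonneg e) h1
    omega
  rw [hPP] at hP0
  refine ⟨σ, e, r, he, hP0, ?_, hr2⟩
  -- the degree
  have hfx : hgt ℂ x = 2 := by
    rw [hgt_eq_finrank hxt, finrank_one_pole (P := P) (n := 2) two_ne_zero (by rw [hx]; norm_num) hxr]
    norm_num
  have hyt : Transcendental ℂ y := P.transcendental_of_ord_ne (by omega)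
  -- a zero of `y`
  obtain ⟨Q, hQ⟩ : ∃ Q : Place ℂ L, 0 < Q.ord y := by
    have hyi : Transcendental ℂ y⁻¹ := fun h => hyt (by simpa using h.inv)
    obtain ⟨S, hS, hS2⟩ := poles (k := ℂ) (K := L) hyi
    have hfd : FiniteDimensional (IntermediateField.adjoin ℂ {y⁻¹}) L := IsFF.finite hyi
    have h3 : 0 < Module.finrank (IntermediateField.adjoin ℂ {y⁻¹}) L := Module.finrank_pos
    have h4 : S.Nonempty := by
      rw [Finset.nonempty_iff_ne_empty]
      rintro rfl
      rw [Finset.sum_empty] at hS2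
      omega
    obtain ⟨Q, hQ⟩ := h4
    have h5 := (hS Q).1 hQ
    rw [Q.ord_inv] at h5
    exact ⟨Q, by omega⟩
  have hQP : Q ≠ P := by
    rintro rfl
    omega
  have hQx := hxr Q hQP
  obtain ⟨c, hc⟩ := exists_const Q (Or.inr hQx : Ge Q 0 x)
  have hred : ∀ p : Polynomial ℂ, Ge Q 1 (Polynomial.aeval x p - algebraMap ℂ L (p.eval c)) := by
    intro p
    have h1 : (Polynomial.X - Polynomial.C c) ∣ (p - Polynomial.C (p.eval c)) := by
      rw [Polynomial.dvd_iff_isRoot]
      simp
    obtain ⟨q, hq⟩ := h1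
    have h2 : Polynomial.aeval x p - algebraMap ℂ L (p.eval c) =
        (x - algebraMap ℂ L c) * Polynomial.aeval x q := by
      have h3 := congrArg (Polynomial.aeval x) hq
      simp only [map_sub, map_mul, Polynomial.aeval_X, Polynomial.aeval_C] at h3
      exact h3
    rw [h2]
    have h3 := hc.mul (ge_aeval Q (Or.inr hQx : Ge Q 0 x) q)
    rwa [add_zero] at h3
  have hroot : c ^ 3 + a * c + b = 0 := by
    apply const_zero Q
    have h1 := hred (Polynomial.X ^ 3 + Polynomial.C a * Polynomial.X + Polynomial.C b)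
    have h2 : Polynomial.aeval x (Polynomial.X ^ 3 + Polynomial.C a * Polynomial.X +
        Polynomial.C b) = y ^ 2 := by
      simp only [map_add, map_mul, map_pow, Polynomial.aeval_X, Polynomial.aeval_C]
      rw [hrel]
    have h3 : Ge Q 1 (y ^ 2) := Or.inr (by rw [Q.ord_pow]; push_cast; omega)
    have h4 := h3.sub h1
    rw [h2, sub_sub_cancel] at h4
    simp only [Polynomial.eval_add, Polynomial.eval_mul, Polynomial.eval_pow, Polynomial.eval_X,
      Polynomial.eval_C] at h4
    exact h4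
  have hNXQ : Q.ord NX = 0 := by
    have h1 := hred (Polynomial.X ^ 4 - 2 * Polynomial.C a * Polynomial.X ^ 2 -
      8 * Polynomial.C b * Polynomial.X + Polynomial.C a ^ 2)
    rw [hNXp] at h1
    have h2 : (Polynomial.X ^ 4 - 2 * Polynomial.C a * Polynomial.X ^ 2 -
        8 * Polynomial.C b * Polynomial.X + Polynomial.C a ^ 2 : Polynomial ℂ).eval c =
        (3 * c ^ 2 + a) ^ 2 := by
      simp only [Polynomial.eval_add, Polynomial.eval_sub, Polynomial.eval_mul, Polynomial.eval_pow,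
        Polynomial.eval_X, Polynomial.eval_C, Polynomial.eval_ofNat]
      linear_combination (-8 * c) * hroot
    have h3 : ((3 * c ^ 2 + a) ^ 2 : ℂ) ≠ 0 := pow_ne_zero _ (hns c hroot)
    rw [h2] at h1
    have h4 : 0 ≤ Q.ord NX := by
      have h5 : Ge Q 0 NX := by
        have h6 := (h1.mono (by norm_num : (0 : ℤ) ≤ 1)).add (Ge.const ((3 * c ^ 2 + a) ^ 2))
        rwa [sub_add_cancel] at h6
      exact h5.resolve_left hNXP.1
    by_contra hne
    have h5 : Ge Q 1 NX := Or.inr (by omega)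
    have h6 := h5.sub h1
    rw [sub_sub_cancel] at h6
    exact h3 (const_zero Q h6)
  have hord4Q : Q.ord (4 : L) = 0 := by
    have := Q.ord_const (c := (4 : ℂ)) (by norm_num)
    rwa [map_ofNat] at this
  have hX2Q : Q.ord X2 ≤ -2 := by
    rw [hX2, Q.ord_div hNXP.1 hd1, hNXQ, Q.ord_mul (by norm_num) (pow_ne_zero _ hy0), hord4Q,
      Q.ord_pow]
    push_cast
    omega
  have hfX2 : 4 ≤ hgt ℂ X2 := by
    obtain ⟨T, hT⟩ := exists_supp (k := ℂ) (Finset.univ : Finset (Fin 1)) ![X2]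
    have h1 : ∀ R : Place ℂ L, R.ord X2 ≠ 0 → R ∈ T := fun R => hT 0 (Finset.mem_univ _) R
    rw [hgt_finset _ T h1]
    have h2 : ({P, Q} : Finset (Place ℂ L)) ⊆ T := by
      intro R hR
      rw [Finset.mem_insert, Finset.mem_singleton] at hR
      rcases hR with rfl | rfl
      · exact h1 _ (by omega)
      · exact h1 _ (by omega)
    refine le_trans ?_ (Finset.sum_le_sum_of_subset_of_nonneg h2 fun _ _ _ => le_max_right _ _)
    rw [Finset.sum_pair (Ne.symm hQP), hX2P]
    have h3 := le_max_left (-Q.ord X2) 0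
    have h4 : max (-(-2 : ℤ)) 0 = 2 := by norm_num
    rw [h4]
    omega
  have h1 := hr1 x
  rw [hσx, hfx] at h1
  omega

/-- **Endomorphisms of the curves of genus at most one.** -/
theorem exists_endo {L : Type} [Field L] [Algebra ℂ L] [IsFF ℂ L] (h : canDeg ℂ L ≤ 0)
    (P : Place ℂ L) : ∃ (σ : L →ₐ[ℂ] L) (e r : ℕ), 0 < e ∧ (∀ f, P.ord (σ f) = e * P.ord f) ∧
      2 ≤ r ∧ ∀ (N : ℕ) (v : Fin (N + 1) → L), (∃ j, v j ≠ 0) →
        pht ℂ (fun i => σ (v i)) = r * pht ℂ v := by
  rcases h.lt_or_eq with h | h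
  · exact endo_rat h P
  · exact endo_ell h P

end Pool.Agent.Q96.HE
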