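import Pool.Agent.W603.PV.Disc
import Pool.Agent.Helper386.D5V.Helper399_FF4
import Pool.Agent.W619.PQ.Local
import Pool.Agent.Helper386.D5V.Helper386_FF_Loc7
import Pool.Agent.Q96.LS.Main

/-!
Finite extensions of function fields: the fundamental identity, heights, the inequality of Hurwitz
with a boundary, centres of places.
-/

set_option autoImplicit false
set_option linter.overlappingInstances false

namespace Pool.Agent.Q96.HE

open MvPolynomial FF Pool.Agent.W603.LV Pool.Agent.W603.PV Pool.Agent.W602.GT Pool.Agent.Q271.RC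
open Pool.Agent.Q96.LS

variable {F L : Type} [Field F] [Algebra ℂ F] [IsFF ℂ F] [Field L] [Algebra ℂ L] [IsFF ℂ L]
  [Algebra F L] [IsScalarTower ℂ F L]

theorem over_under (P : Place ℂ L) : Over P (under F P) (ram F P) :=
  ⟨(ram_spec (F := F) P).1, fun x => ord_under P x⟩

/-- the fundamental identity -/
theorem sum_ram [FiniteDimensional F L] (p : Place ℂ F) : ∃ S : Finset (Place ℂ L),
    (∀ P, P ∈ S ↔ under F P = p) ∧ ∑ P ∈ S, (ram F P : ℤ) = Module.finrank F L := by
  classical
  obtain ⟨S, T, h1, h2, h3⟩ := exists_places_over (k := ℂ) (K := F) (K' := L) p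
  have hmem : ∀ P, P ∈ S ↔ under F P = p := by
    intro P
    constructor
    · intro hP
      obtain ⟨e, h, -⟩ := h2 P hP
      exact (Pool.Agent.W619.PQ.over_unique' (over_under (F := F) P) h).1
    · intro hP
      refine h1 P (ram F P) ?_
      rw [← hP]
      exact over_under P
  refine ⟨S, hmem, ?_⟩
  rw [← h3]
  push_cast
  refine Finset.sum_congr rfl fun P hP => ?_
  obtain ⟨e, h, h4, -⟩ := h2 P hP
  have h5 := (Pool.Agent.W619.PQ.over_unique' (over_under (F := F) P) h).2
  have h6 := h.deg_eq_mul _ rfl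
  rw [deg_one, deg_one, one_mul] at h6
  rw [h4, ← h6, h5, mul_one]

/-- sums over the fibres -/
theorem sum_fibre [FiniteDimensional F L] (T : Finset (Place ℂ F)) (c : Place ℂ F → ℤ) :
    ∃ S : Finset (Place ℂ L), (∀ P, P ∈ S ↔ under F P ∈ T) ∧
      ∑ P ∈ S, (ram F P : ℤ) * c (under F P) = Module.finrank F L * ∑ p ∈ T, c p := by
  classical
  choose S hS hsum using fun p : Place ℂ F => sum_ram (F := F) (L := L) p
  refine ⟨T.biUnion S, fun P => ?_, ?_⟩
  · rw [Finset.mem_biUnion]
    constructor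
    · rintro ⟨p, hp, hP⟩
      rw [(hS p P).1 hP]
      exact hp
    · intro hP
      exact ⟨_, hP, (hS _ P).2 rfl⟩
  · rw [Finset.sum_biUnion]
    · rw [Finset.mul_sum]
      refine Finset.sum_congr rfl fun p _ => ?_
      rw [← hsum p, Finset.sum_mul]
      refine Finset.sum_congr rfl fun P hP => ?_
      rw [(hS p P).1 hP]
    · intro p _ q _ hpq
      rw [Function.onFun, Finset.disjoint_left]
      intro P hP hQ
      apply hpq
      rw [← (hS p P).1 hP, ← (hS q P).1 hQ]

omit [IsFF ℂ L] in
theorem pord_scale (P : Place ℂ L) {N : ℕ} (v : Fin (N + 1) → L) (hv : ∃ j, v j ≠ 0) {l : L}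
    (hl : l ≠ 0) : pord P (fun i => l * v i) = P.ord l + pord P v := by
  obtain ⟨j, hj, hj'⟩ := exists_pord P hv
  obtain ⟨i, hi, hi'⟩ := exists_pord P (f := fun i => l * v i) ⟨j, mul_ne_zero hl hj⟩
  have hvi : v i ≠ 0 := right_ne_zero_of_mul hi
  apply le_antisymm
  · rw [← hj', ← P.ord_mul hl hj]
    exact pord_le P (f := fun i => l * v i) (mul_ne_zero hl hj)
  · rw [← hi', P.ord_mul hl hvi]
    have := pord_le P hvi
    linarith

theorem pord_ext (P : Place ℂ L) {N : ℕ} (v : Fin (N + 1) → F) (hv : ∃ j, v j ≠ 0) :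
    pord P (fun i => algebraMap F L (v i)) = ram F P * pord (under F P) v := by
  have h0 : (0 : ℤ) < ram F P := by exact_mod_cast (ram_spec (F := F) P).1
  obtain ⟨j, hj, hj'⟩ := exists_pord (under F P) hv
  have hj2 : algebraMap F L (v j) ≠ 0 := (map_ne_zero _).2 hj
  obtain ⟨i, hi, hi'⟩ := exists_pord P (f := fun i => algebraMap F L (v i)) ⟨j, hj2⟩
  have hvi : v i ≠ 0 := fun h => hi (by rw [h, map_zero])
  apply le_antisymm
  · rw [← hj', ← ord_under]
    exact pord_le P (f := fun i => algebraMap F L (v i)) hj2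
  · rw [← hi', ord_under]
    exact mul_le_mul_of_nonneg_left (pord_le _ hvi) h0.le

/-- heights in extensions -/
theorem pht_ext [FiniteDimensional F L] {N : ℕ} (v : Fin (N + 1) → F) (hv : ∃ j, v j ≠ 0) {l : L}
    (hl : l ≠ 0) :
    pht ℂ (fun i => l * algebraMap F L (v i)) = Module.finrank F L * pht ℂ v := by
  classical
  have hv' : ∃ j, algebraMap F L (v j) ≠ 0 := by
    obtain ⟨j, hj⟩ := hv
    exact ⟨j, (map_ne_zero _).2 hj⟩
  obtain ⟨T, hT⟩ := exists_supp (k := ℂ) Finset.univ v
  have hT' : ∀ p, p ∉ T → pord p v = 0 := by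
    intro p hp
    obtain ⟨j, hj, hj'⟩ := exists_pord p hv
    rw [← hj']
    by_contra h
    exact hp (hT j (Finset.mem_univ j) p h)
  obtain ⟨S, hS, hsum⟩ := sum_fibre (L := L) T (fun p => pord p v)
  obtain ⟨S2, hS2⟩ := exists_supp (k := ℂ) Finset.univ (fun _ : Fin 1 => l)
  have hl0 : ∀ P, P ∉ S ∪ S2 → P.ord l = 0 := by
    intro P hP
    by_contra h
    exact hP (Finset.mem_union_right _ (hS2 0 (Finset.mem_univ _) P h))
  have hSS : ∀ P, P ∉ S → pord (under F P) v = 0 := fun P hP =>
    hT' _ fun h => hP ((hS P).2 h)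
  have e1 : ∀ P : Place ℂ L, pord P (fun i => l * algebraMap F L (v i)) =
      P.ord l + ram F P * pord (under F P) v := by
    intro P
    rw [pord_scale P _ hv' hl, pord_ext P v hv]
  unfold pht
  rw [finsum_eq_sum_of_support_subset (s := S ∪ S2), finsum_eq_sum_of_support_subset (s := T)]
  · rw [Finset.sum_congr rfl fun P _ => e1 P, Finset.sum_add_distrib,
      sum_ord_finset (k := ℂ) l (S ∪ S2) (fun P hP => by
        by_contra h
        exact hP (hl0 P h)), zero_add, mul_neg, ← hsum]
    congr 1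
    symm
    refine Finset.sum_subset Finset.subset_union_left fun P _ hP => ?_
    rw [hSS P hP, mul_zero]
  · intro p hp
    by_contra h
    exact hp (hT' p h)
  · intro P hP
    by_contra h
    apply hP
    show pord P (fun i => l * algebraMap F L (v i)) = 0
    rw [e1, hl0 P h, hSS P (fun h1 => h (Finset.mem_coe.2 (Finset.mem_union_left _ h1))), mul_zero,
      add_zero]

/-- **The inequality of Hurwitz**, with a boundary. -/
theorem hurwitz [FiniteDimensional F L] (T : Finset (Place ℂ F)) (S : Finset (Place ℂ L))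
    (hS : ∀ P, P ∈ S ↔ under F P ∈ T) :
    Module.finrank F L * (canDeg ℂ F + T.card) ≤ canDeg ℂ L + S.card := by
  classical
  have hF : CharZero F := charZero_of_injective_algebraMap (algebraMap ℂ F).injective
  obtain ⟨D, hD⟩ := exists_der (k := ℂ) (K := F)
  obtain ⟨D', hDD'⟩ := exists_ext_der (L := L) D
  have hD' : D' ≠ 0 := by
    rintro rfl
    apply hD
    ext x
    have := hDD' x
    rw [Derivation.coe_zero, Pi.zero_apply, eq_comm, map_eq_zero] at this
    rw [this]; rfl
  -- the places of `F`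
  set V : Finset (Place ℂ F) := (vo_finite hD).toFinset ∪ T with hV
  have hVmem : ∀ p, vo p D ≠ 0 → p ∈ V := fun p hp => by simp [hV, hp]
  have h1 := canDeg_finset hD V hVmem
  obtain ⟨W, hW, hWsum⟩ := sum_fibre (L := L) V (fun p => vo p D)
  obtain ⟨S1, hS1, hS1sum⟩ := sum_fibre (L := L) T (fun _ => 1)
  have hSS1 : S = S1 := by
    ext P
    rw [hS, hS1]
  subst hSS1
  set X : Finset (Place ℂ L) := (vo_finite hD').toFinset ∪ (ram_finite (F := F)).toFinset ∪ W
    with hX
  have hSW : S ⊆ W := by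
    intro P hP
    rw [hW]
    exact Finset.mem_union_right _ ((hS P).1 hP)
  have hWX : W ⊆ X := Finset.subset_union_right
  have h2 := canDeg_finset hD' X fun P hP => by simp [hX, hP]
  have h3 : ∑ P ∈ X, vo P D' = ∑ P ∈ X, (ram F P : ℤ) * vo (under F P) D -
      ∑ P ∈ X, ((ram F P : ℤ) - 1) := by
    rw [← Finset.sum_sub_distrib]
    exact Finset.sum_congr rfl fun P _ => vo_under hD hD' hDD' P
  have h4 : ∑ P ∈ X, (ram F P : ℤ) * vo (under F P) D =
      ∑ P ∈ W, (ram F P : ℤ) * vo (under F P) D := by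
    symm
    refine Finset.sum_subset hWX fun P _ hP => ?_
    have h5 : vo (under F P) D = 0 := by
      by_contra h
      exact hP ((hW P).2 (hVmem _ h))
    rw [h5, mul_zero]
  have h6 : ∑ P ∈ S, ((ram F P : ℤ) - 1) ≤ ∑ P ∈ X, ((ram F P : ℤ) - 1) := by
    refine Finset.sum_le_sum_of_subset_of_nonneg (hSW.trans hWX) fun P _ _ => ?_
    have := (ram_spec (F := F) P).1
    omega
  have h7 : ∑ P ∈ S, ((ram F P : ℤ) - 1) = Module.finrank F L * T.card - S.card := by
    rw [Finset.sum_sub_distrib]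
    simp only [mul_one, Finset.sum_const, nsmul_eq_mul] at hS1sum ⊢
    rw [hS1sum]
  rw [h3, h4, hWsum] at h2
  have h8 : (Module.finrank F L : ℤ) * canDeg ℂ F = - (Module.finrank F L * ∑ p ∈ V, vo p D) := by
    have : canDeg ℂ F = - ∑ p ∈ V, vo p D := by rw [h1, neg_neg]
    rw [this, mul_neg]
  rw [mul_add, h8]
  linarith

/-- centres of places in extensions -/
theorem centre_ext {N : ℕ} (D : Set (MvPolynomial (Fin (N + 1)) ℂ)) (v : Fin (N + 1) → F)
    (hv : ∃ j, v j ≠ 0) {l : L} (hl : l ≠ 0) (P : Place ℂ L) :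
    CentreIn D (fun i => l * algebraMap F L (v i)) P ↔ CentreIn D v (under F P) := by
  have h0 : (0 : ℤ) < ram F P := by exact_mod_cast (ram_spec (F := F) P).1
  have hn : ∀ c : ℤ, Norm (under F P) v c →
      Norm P (fun i => l * algebraMap F L (v i)) (P.ord l + ram F P * c) := by
    rintro c ⟨h1, j, hj, h2⟩
    have hj2 : algebraMap F L (v j) ≠ 0 := (map_ne_zero _).2 hj
    refine ⟨fun i hi => ?_, j, mul_ne_zero hl hj2, ?_⟩
    · have hi2 : algebraMap F L (v i) ≠ 0 := right_ne_zero_of_mul hi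
      have hi3 : v i ≠ 0 := fun h => hi2 (by rw [h, map_zero])
      rw [P.ord_mul hl hi2, ord_under]
      have := mul_le_mul_of_nonneg_left (h1 i hi3) h0.le
      linarith
    · rw [P.ord_mul hl hj2, ord_under, h2]
  have huniq : ∀ {M : Type} [Field M] [Algebra ℂ M] (Q : Place ℂ M) (w : Fin (N + 1) → M)
      (c c' : ℤ), Norm Q w c → Norm Q w c' → c = c' := by
    rintro M _ _ Q w c c' ⟨h1, j, hj, h2⟩ ⟨h3, i, hi, h4⟩
    have := h1 i hi
    have := h3 j hj
    omega
  have hval : ∀ (G : MvPolynomial (Fin (N + 1)) ℂ) (E : ℕ), G.IsHomogeneous E →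
      aeval (fun i => l * algebraMap F L (v i)) G = l ^ E * algebraMap F L (aeval v G) := by
    intro G E hG
    rw [hom_scale l _ hG, aeval_algebraMap']
  obtain ⟨j0, hj0, hj0'⟩ := exists_pord (under F P) hv
  have hnorm : Norm (under F P) v (pord (under F P) v) :=
    ⟨fun i hi => pord_le _ hi, j0, hj0, hj0'⟩
  constructor
  · intro h c hc G hG E hE
    rcases h _ (hn c hc) G hG E hE with h1 | h1
    · left
      rw [hval G E hE] at h1
      have h2 := (mul_eq_zero.1 h1).resolve_left (pow_ne_zero _ hl)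
      rwa [map_eq_zero] at h2
    · by_cases hz : aeval v G = 0
      · exact Or.inl hz
      right
      rw [hval G E hE, P.ord_mul (pow_ne_zero _ hl) ((map_ne_zero _).2 hz), P.ord_pow,
        ord_under] at h1
      have h2 : (ram F P : ℤ) * (E * c) < ram F P * (under F P).ord (aeval v G) := by
        linarith
      exact lt_of_mul_lt_mul_left h2 h0.le
  · intro h c' hc' G hG E hE
    have hc := huniq P _ _ _ hc' (hn _ hnorm)
    rcases h _ hnorm G hG E hE with h1 | h1
    · left
      rw [hval G E hE, h1, map_zero, mul_zero]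
    · by_cases hz : aeval v G = 0
      · left
        rw [hval G E hE, hz, map_zero, mul_zero]
      right
      rw [hval G E hE, P.ord_mul (pow_ne_zero _ hl) ((map_ne_zero _).2 hz), P.ord_pow,
        ord_under, hc]
      have h2 := mul_lt_mul_of_pos_left h1 h0
      linarith

end Pool.Agent.Q96.HE
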