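import Pool.Agent.Q96.HE.Curve

/-!
A proper closed subset of a surface contains only finitely many closed curves.
-/

set_option autoImplicit false

namespace Pool.Agent.Q96.HE

open MvPolynomial FF Pool.Agent.W603.LV Pool.Agent.W603.PV Pool.Agent.W602.GT Pool.Agent.Q271.RC
open Pool.Agent.Q96.LS Pool.Agent.Q96.OS Pool.Agent.Q72.NA

/-- transcendence degrees of residue rings -/
theorem drop {A : Type} [CommRing A] [Algebra ℂ A] [Algebra.FiniteType ℂ A] (q1 q2 : Ideal A)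
    [q1.IsPrime] [q2.IsPrime] (h : q1 < q2) (n : ℕ) (hn : Algebra.trdeg ℂ (A ⧸ q1) ≤ n) :
    ∃ m : ℕ, m < n ∧ Algebra.trdeg ℂ (A ⧸ q2) ≤ m := by
  classical
  let π : (A ⧸ q1) →ₐ[ℂ] (A ⧸ q2) := Ideal.Quotient.factorₐ ℂ h.le
  let M : Type := FractionRing (A ⧸ q2)
  let ι : (A ⧸ q2) →ₐ[ℂ] M := IsScalarTower.toAlgHom ℂ (A ⧸ q2) M
  have hιinj : Function.Injective ι := IsFractionRing.injective (A ⧸ q2) M
  let φ : (A ⧸ q1) →ₐ[ℂ] M := ι.comp π
  have hπ : Function.Surjective π := Ideal.Quotient.factor_surjective h.le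
  have hgen : IntermediateField.adjoin ℂ (Set.range φ) = ⊤ := by
    rw [eq_top_iff]
    intro z _
    obtain ⟨x, y, hy, rfl⟩ := IsFractionRing.div_surjective (A := A ⧸ q2) z
    obtain ⟨x', rfl⟩ := hπ x
    obtain ⟨y', rfl⟩ := hπ y
    exact div_mem (IntermediateField.subset_adjoin _ _ ⟨x', rfl⟩)
      (IntermediateField.subset_adjoin _ _ ⟨y', rfl⟩)
  have hfin : Algebra.trdeg ℂ (A ⧸ q2) < Cardinal.aleph0 := by
    have : Algebra.FiniteType ℂ (A ⧸ q2) := Algebra.FiniteType.of_surjective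
      (Ideal.Quotient.mkₐ ℂ q2) Ideal.Quotient.mk_surjective
    exact trdeg_lt_aleph0_of_finiteType
  obtain ⟨m, hm⟩ := Cardinal.lt_aleph0.1 hfin
  have hMt : Algebra.trdeg ℂ M = m := by
    rw [← hm, ← trdeg_add_eq ℂ (A ⧸ q2) (A := M)]
    have : Algebra.IsAlgebraic (A ⧸ q2) M := IsLocalization.isAlgebraic _ (nonZeroDivisors (A ⧸ q2))
    rw [trdeg_eq_zero (R := A ⧸ q2) (A := M), add_zero]
  obtain ⟨h1, h2⟩ := Pool.Agent.Q96.LS.inj_of_trdeg φ hgen hn hMt
  refine ⟨m, lt_of_le_of_ne h1 fun hmn => ?_, hm.le⟩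
  have h3 := h2 hmn
  apply h.not_ge
  intro x hx
  have h4 : φ (Ideal.Quotient.mk q1 x) = 0 := by
    show ι (π (Ideal.Quotient.mk q1 x)) = 0
    have h5 : π (Ideal.Quotient.mk q1 x) = Ideal.Quotient.mk q2 x := rfl
    rw [h5, Ideal.Quotient.eq_zero_iff_mem.2 hx, map_zero]
  rw [← map_zero φ] at h4
  exact Ideal.Quotient.eq_zero_iff_mem.1 (h3 h4)

/-- the ideal of an affine chart of a point -/
noncomputable def chartIdeal {N : ℕ} (j : Fin (N + 1)) {L : Type} [Field L] [Algebra ℂ L]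
    (v : Fin (N + 1) → L) : Ideal (MvPolynomial (Fin (N + 1)) ℂ) :=
  RingHom.ker (aeval fun i => v i / v j : MvPolynomial (Fin (N + 1)) ℂ →ₐ[ℂ] L)

instance {N : ℕ} (j : Fin (N + 1)) {L : Type} [Field L] [Algebra ℂ L]
    (v : Fin (N + 1) → L) : (chartIdeal j v).IsPrime := RingHom.ker_isPrime _

theorem mem_chart {N : ℕ} {j : Fin (N + 1)} {L : Type} [Field L] [Algebra ℂ L]
    {v : Fin (N + 1) → L} {p : MvPolynomial (Fin (N + 1)) ℂ} :
    p ∈ chartIdeal j v ↔ aeval (fun i => v i / v j) p = 0 := Iff.rfl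

theorem mem_chart_hom {N : ℕ} {j : Fin (N + 1)} {L : Type} [Field L] [Algebra ℂ L]
    {v : Fin (N + 1) → L} (hj : v j ≠ 0) {p : MvPolynomial (Fin (N + 1)) ℂ} {E : ℕ}
    (hp : p.IsHomogeneous E) : p ∈ chartIdeal j v ↔ aeval v p = 0 := by
  rw [mem_chart]
  have h1 : aeval v p = v j ^ E * aeval (fun i => v i / v j) p := by
    rw [← hom_scale (v j) _ hp]
    congr 2
    funext i
    field_simp
  rw [h1, mul_eq_zero, or_iff_right (pow_ne_zero _ hj)]

theorem chart_trdeg_le {N : ℕ} (j : Fin (N + 1)) {L : Type} [Field L] [Algebra ℂ L]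
    (v : Fin (N + 1) → L) :
    Algebra.trdeg ℂ (MvPolynomial (Fin (N + 1)) ℂ ⧸ chartIdeal j v) ≤ Algebra.trdeg ℂ L := by
  unfold chartIdeal
  exact trdeg_le_of_injective
    (Ideal.kerLiftAlg (aeval fun i => v i / v j : MvPolynomial (Fin (N + 1)) ℂ →ₐ[ℂ] L))
    (Ideal.kerLiftAlg_injective _)

/-- the residue ring of a nonconstant point has transcendence degree at least one -/
theorem chart_trdeg {N : ℕ} {j : Fin (N + 1)} {L : Type} [Field L] [Algebra ℂ L]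
    {v : Fin (N + 1) → L} (hj : v j ≠ 0) (hv : Nonconst v) {m : ℕ}
    (hm : Algebra.trdeg ℂ (MvPolynomial (Fin (N + 1)) ℂ ⧸ chartIdeal j v) ≤ m) : 0 < m := by
  by_contra h0
  have h1 : m = 0 := by omega
  subst h1
  rw [Nat.cast_zero, nonpos_iff_eq_zero, trdeg_eq_zero_iff] at hm
  obtain ⟨i, l, hl, htr⟩ := hv
  let φ : (MvPolynomial (Fin (N + 1)) ℂ ⧸ chartIdeal j v) →ₐ[ℂ] L :=
    Ideal.Quotient.liftₐ (chartIdeal j v) (aeval fun i => v i / v j) fun p hp => hp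
  have h2 : ∀ i, IsAlgebraic ℂ (v i / v j) := by
    intro i
    have h3 := (hm.isAlgebraic (Ideal.Quotient.mk (chartIdeal j v) (X i))).algHom φ
    have h4 : φ (Ideal.Quotient.mk (chartIdeal j v) (X i)) = v i / v j := by
      show Ideal.Quotient.liftₐ (chartIdeal j v) (aeval fun i => v i / v j) _
        (Ideal.Quotient.mk (chartIdeal j v) (X i)) = _
      rw [Ideal.Quotient.liftₐ_apply, Ideal.Quotient.lift_mk]
      show aeval (fun i => v i / v j) (X i) = _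
      rw [aeval_X]
    rwa [h4] at h3
  apply htr
  have h3 : v i / v l = (v i / v j) * (v l / v j)⁻¹ := by
    field_simp
  rw [h3]
  exact (h2 i).mul (h2 l).inv

theorem sameCurve_of_van {N : ℕ} {M : Type} [Field M] [Algebra ℂ M] {w : Fin (N + 1) → M} {L : Type}
    [Field L] [Algebra ℂ L] {v : Fin (N + 1) → L} (h : vanForms w = vanForms v) :
    SameCurve w v := by
  intro G E hG
  have h1 : G ∈ vanForms w ↔ G ∈ vanForms v := by rw [h]
  constructor
  · intro h2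
    exact (h1.1 ⟨⟨E, hG⟩, h2⟩).2
  · intro h2
    exact (h1.2 ⟨⟨E, hG⟩, h2⟩).2

theorem SameCurve.van {N : ℕ} {M : Type} [Field M] [Algebra ℂ M] {w : Fin (N + 1) → M} {L : Type}
    [Field L] [Algebra ℂ L] {v : Fin (N + 1) → L} (h : SameCurve w v) :
    vanForms w = vanForms v := by
  ext G
  constructor
  · rintro ⟨⟨E, hG⟩, h2⟩
    exact ⟨⟨E, hG⟩, (h G E hG).1 h2⟩
  · rintro ⟨⟨E, hG⟩, h2⟩
    exact ⟨⟨E, hG⟩, (h G E hG).2 h2⟩

/-- **A proper closed subset of a surface contains only finitely many closed curves.** -/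
theorem finite_curves {N : ℕ} {K : Type} [Field K] [Algebra ℂ K] {b : Fin (N + 1) → K} {d : ℕ}
    (hd : Algebra.trdeg ℂ K = d) (hd2 : d ≤ 2) (G : MvPolynomial (Fin (N + 1)) ℂ) {E : ℕ}
    (hG : G.IsHomogeneous E) (hGb : aeval b G ≠ 0) :
    {V : Set (MvPolynomial (Fin (N + 1)) ℂ) | ∃ (L : Type) (_ : Field L) (_ : Algebra ℂ L)
      (v : Fin (N + 1) → L), IsPoint b v ∧ aeval v G = 0 ∧ Nonconst v ∧ V = vanForms v}.Finite := by
  classical
  -- the charts
  have hchart : ∀ j : Fin (N + 1), b j ≠ 0 →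
      {q : Ideal (MvPolynomial (Fin (N + 1)) ℂ) | ∃ (L : Type) (_ : Field L) (_ : Algebra ℂ L)
        (v : Fin (N + 1) → L), IsPoint b v ∧ aeval v G = 0 ∧ Nonconst v ∧ v j ≠ 0 ∧
        q = chartIdeal j v}.Finite := by
    intro j hj
    refine (Ideal.finite_minimalPrimes_of_isNoetherianRing _
      (chartIdeal j b ⊔ Ideal.span {G})).subset ?_
    rintro q ⟨L, _, _, v, hv, hGv, hnc, hvj, rfl⟩
    have hle : chartIdeal j b ⊔ Ideal.span {G} ≤ chartIdeal j v := by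
      refine sup_le ?_ ?_
      · intro p hp
        exact rel_of_point hv hj hvj p hp
      · rw [Ideal.span_le, Set.singleton_subset_iff]
        exact (mem_chart_hom hvj hG).2 hGv
    obtain ⟨q, hq, hqv⟩ := Ideal.exists_minimalPrimes_le hle
    have hqp : q.IsPrime := hq.1.1
    have hbq : chartIdeal j b < q := by
      refine lt_of_le_of_ne (le_sup_left.trans hq.1.2) fun h => ?_
      have h1 : G ∈ q := hq.1.2 (Ideal.mem_sup_right (Ideal.subset_span rfl))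
      rw [← h, mem_chart_hom hj hG] at h1
      exact hGb h1
    have hbt : Algebra.trdeg ℂ (MvPolynomial (Fin (N + 1)) ℂ ⧸ chartIdeal j b) ≤ d := by
      rw [← hd]
      exact chart_trdeg_le j b
    obtain ⟨m1, hm1, hqt⟩ := drop (chartIdeal j b) q hbq d hbt
    by_cases hqe : q = chartIdeal j v
    · rw [← hqe]
      exact hq
    · exfalso
      obtain ⟨m2, hm2, hvt⟩ := drop q (chartIdeal j v) (lt_of_le_of_ne hqv hqe) m1 hqt
      have := chart_trdeg hvj hnc hvt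
      omega
  have hfin := Set.finite_iUnion fun j : {j : Fin (N + 1) // b j ≠ 0} => (hchart j.1 j.2).image
    (fun q : Ideal (MvPolynomial (Fin (N + 1)) ℂ) =>
      {p : MvPolynomial (Fin (N + 1)) ℂ | (∃ E, p.IsHomogeneous E) ∧ p ∈ q})
  refine hfin.subset ?_
  rintro V ⟨L, _, _, v, hv, hGv, hnc, rfl⟩
  obtain ⟨i, j, hvj, htr⟩ := id hnc
  have hbj : b j ≠ 0 := by
    intro h0
    apply hvj
    have h1 := hv (X j) 1 (isHomogeneous_X _ _) (by rw [aeval_X, h0])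
    rwa [aeval_X] at h1
  rw [Set.mem_iUnion]
  refine ⟨⟨j, hbj⟩, chartIdeal j v, ⟨L, inferInstance, inferInstance, v, hv, hGv, hnc, hvj, rfl⟩, ?_⟩
  ext p
  constructor
  · rintro ⟨⟨E, hE⟩, hp⟩
    exact ⟨⟨E, hE⟩, (mem_chart_hom hvj hE).1 hp⟩
  · rintro ⟨⟨E, hE⟩, hp⟩
    exact ⟨⟨E, hE⟩, (mem_chart_hom hvj hE).2 hp⟩

end Pool.Agent.Q96.HE
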