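import Pool.Agent.Q96.HE.Ext

/-!
Curves of logarithmic general type satisfy `2 g - 2 + s > 0`.
-/

set_option autoImplicit false

namespace Pool.Agent.Q96.HE

open MvPolynomial FF Pool.Agent.W603.LV Pool.Agent.W603.PV Pool.Agent.W602.GT Pool.Agent.Q271.RC
open Pool.Agent.Q96.LS

variable {L : Type} [Field L] [Algebra ℂ L] [IsFF ℂ L]

omit [IsFF ℂ L] in
theorem divisorial_one (P : Place ℂ L) : Divisorial 1 P := by
  refine ⟨fun i => i.elim0, fun F hF => ?_⟩
  have h1 : F = C (coeff 0 F) := by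
    ext m
    have hm : m = 0 := by
      ext i
      exact i.elim0
    rw [hm, coeff_C, if_pos rfl]
  have h2 : coeff 0 F ≠ 0 := by
    intro h
    rw [h, map_zero] at h1
    exact hF h1
  have h3 : aeval (fun i : Fin (1 - 1) => (i.elim0 : L)) F = algebraMap ℂ L (coeff 0 F) := by
    rw [h1, aeval_C, coeff_C, if_pos rfl]
  rw [h3]
  exact ⟨(map_ne_zero _).2 h2, P.ord_const h2⟩

omit [IsFF ℂ L] in
theorem pluri_smul {N : ℕ} {ω : (Fin 1 → Derivation ℂ L L) → L} (h : IsPluri N ω) (r : L)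
    (D : Derivation ℂ L L) : ω (fun _ => r • D) = r ^ N * ω (fun _ => D) := by
  have h1 := h (fun _ _ => r) (fun _ => D)
  rw [Matrix.det_fin_one] at h1
  rw [← h1]
  congr 1
  funext i
  rw [Fin.sum_univ_one]

/-- the order of a form with logarithmic poles -/
theorem ord_form {N : ℕ} {ω : (Fin 1 → Derivation ℂ L L) → L} (hω : IsPluri N ω) (P : Place ℂ L)
    {D : Derivation ℂ L L} (hD : D ≠ 0) (h0 : ω (fun _ => D) ≠ 0) (hlog : LogAt P ω) :
    N * vo P D - N ≤ P.ord (ω fun _ => D) ∧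
      (RegAt P ω → N * vo P D ≤ P.ord (ω fun _ => D)) := by
  obtain ⟨π, hπ0, hπ⟩ := P.surj
  have hDπ : D π ≠ 0 := der_pi_ne_zero hD P hπ
  have hvo := vo_eq P hπ hD
  set D' : Derivation ℂ L L := (D π)⁻¹ • D with hD'
  have hD'π : D' π = 1 := by
    rw [hD', Derivation.coe_smul, Pi.smul_apply, smul_eq_mul, inv_mul_cancel₀ hDπ]
  have hreg : DerReg P D' := fun f hf => der_reg P hπ D' hD'π hf
  have hD'0 : D' ≠ 0 := by
    intro h
    rw [h] at hD'π
    simp at hD'π
  have hvo' : vo P D' = 0 := by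
    rw [← vo_eq P hπ hD'0, hD'π, P.ord_one]
  have hL : DerLog P (π • D') := by
    intro f
    by_cases hf0 : f = 0
    · rw [hf0, map_zero, zero_div]
      exact Or.inl rfl
    by_cases hDf : D' f = 0
    · have : (π • D') f = 0 := by
        rw [Derivation.coe_smul, Pi.smul_apply, hDf, smul_zero]
      rw [this, zero_div]
      exact Or.inl rfl
    right
    rw [Derivation.coe_smul, Pi.smul_apply, smul_eq_mul, P.ord_div (mul_ne_zero hπ0 hDf) hf0,
      P.ord_mul hπ0 hDf, hπ]
    by_cases hf : P.ord f = 0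
    · have h1 := hreg f (Or.inr hf.ge)
      have h2 := (P.reg_iff hDf).1 h1
      omega
    · have h1 := (ord_der P hD'0 hf).2
      omega
  have e1 : ω (fun _ => D') = (D π)⁻¹ ^ N * ω (fun _ => D) := pluri_smul hω _ _
  have e2 : ω (fun _ => π • D') = π ^ N * ω (fun _ => D') := pluri_smul hω _ _
  have hne1 : ω (fun _ => D') ≠ 0 := by
    rw [e1]
    exact mul_ne_zero (pow_ne_zero _ (inv_ne_zero hDπ)) h0
  have o1 : P.ord (ω fun _ => D') = - (N * vo P D) + P.ord (ω fun _ => D) := by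
    rw [e1, P.ord_mul (pow_ne_zero _ (inv_ne_zero hDπ)) h0, P.ord_pow, P.ord_inv, hvo]
    ring
  have o2 : P.ord (ω fun _ => π • D') = N + P.ord (ω fun _ => D') := by
    rw [e2, P.ord_mul (pow_ne_zero _ hπ0) hne1, P.ord_pow, hπ, mul_one]
  constructor
  · have h1 := hlog (fun _ => π • D') (fun _ => hL)
    have h2 := (P.reg_iff (by
      rw [e2]
      exact mul_ne_zero (pow_ne_zero _ hπ0) hne1)).1 h1
    linarith
  · intro hr
    have h1 := hr (fun _ => D') (fun _ => hreg)
    have h2 := (P.reg_iff hne1).1 h1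
    linarith

/-- **Curves of logarithmic general type satisfy `2 g - 2 + s > 0`.** -/
theorem pos_of_lgt {Bd : Place ℂ L → Prop} (hfin : {P | Bd P}.Finite)
    (h : LogGeneralType ℂ L 1 Bd) : 0 < canDeg ℂ L + {P | Bd P}.ncard := by
  classical
  obtain ⟨-, N, hN, ω, hpl, hlog, hreg, D, hD0, hai⟩ := h
  by_contra hcon
  rw [not_lt] at hcon
  have hder : der ℂ L ≠ 0 := der_ne
  set D0 := der ℂ L with hD0d
  obtain ⟨r, hr⟩ := der_smul (D' := D 0) hder
  have hDr : D = fun _ => r • D0 := by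
    funext i
    rw [Subsingleton.elim i 0, hr]
  have hval : ∀ j, ω j D = r ^ N * ω j (fun _ => D0) := by
    intro j
    rw [hDr]
    exact pluri_smul (hpl j) _ _
  have hr0 : r ^ N ≠ 0 := by
    intro h
    apply hD0
    rw [hval, h, zero_mul]
  have hf0 : ω 0 (fun _ => D0) ≠ 0 := by
    intro h
    apply hD0
    rw [hval, h, mul_zero]
  have htr : Transcendental ℂ (ω 1 (fun _ => D0) / ω 0 (fun _ => D0)) := by
    rw [algebraicIndependent_unique_type_iff] at hai
    have h1 : ω (Fin.succ default) D / ω 0 D = ω 1 (fun _ => D0) / ω 0 (fun _ => D0) := by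
      rw [hval, hval, mul_div_mul_left _ _ hr0]
      rfl
    rw [h1] at hai
    exact hai
  have hf1 : ω 1 (fun _ => D0) ≠ 0 := by
    intro h
    rw [h, zero_div] at htr
    exact htr (isAlgebraic_zero)
  -- a finite set of places
  obtain ⟨T0, hT0⟩ := exists_supp (k := ℂ) (Finset.univ : Finset (Fin 2))
    ![ω 0 (fun _ => D0), ω 1 (fun _ => D0)]
  set T : Finset (Place ℂ L) := T0 ∪ (vo_finite hder).toFinset ∪ hfin.toFinset with hT
  have hc := canDeg_finset hder T fun P hP => by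
    simp only [hT, Finset.mem_union, Set.Finite.mem_toFinset]
    exact Or.inl (Or.inr hP)
  have hBd : ∑ P ∈ T, (if Bd P then (1 : ℤ) else 0) = {P | Bd P}.ncard := by
    rw [Finset.sum_boole, Set.ncard_eq_toFinset_card _ hfin]
    congr 2
    ext P
    simp only [Finset.mem_filter, Set.Finite.mem_toFinset, hT, Finset.mem_union]
    exact ⟨fun h => h.2, fun h => ⟨Or.inr h, h⟩⟩
  let c : Place ℂ L → ℤ := fun P => N * vo P D0 - N * (if Bd P then 1 else 0)
  have hcsum : ∑ P ∈ T, c P = - (N * (canDeg ℂ L + {P | Bd P}.ncard)) := by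
    simp only [c]
    rw [Finset.sum_sub_distrib, ← Finset.mul_sum, ← Finset.mul_sum, hBd]
    have h1 : ∑ P ∈ T, vo P D0 = - canDeg ℂ L := by
      rw [hc]
    rw [h1]
    ring
  have hge : ∀ j, ω j (fun _ => D0) ≠ 0 → ∀ P, c P ≤ P.ord (ω j fun _ => D0) := by
    intro j hj P
    obtain ⟨h1, h2⟩ := ord_form (hpl j) P hder hj (hlog P (divisorial_one P) j)
    simp only [c]
    split_ifs with hB
    · linarith
    · have := h2 (hreg P (divisorial_one P) hB j)
      linarith
  have heq : ∀ j, ω j (fun _ => D0) ≠ 0 → (∀ P, P.ord (ω j fun _ => D0) ≠ 0 → P ∈ T) →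
      ∀ P ∈ T, P.ord (ω j fun _ => D0) = c P := by
    intro j hj hjT P hP
    have h1 := sum_ord_finset (k := ℂ) (ω j fun _ => D0) T hjT
    have h2 : ∑ P ∈ T, (P.ord (ω j fun _ => D0) - c P) ≤ 0 := by
      rw [Finset.sum_sub_distrib, h1, hcsum]
      have h3 : (N : ℤ) * (canDeg ℂ L + {P | Bd P}.ncard) ≤ 0 :=
        mul_nonpos_of_nonneg_of_nonpos (Int.natCast_nonneg _) hcon
      linarith
    have h3 := Finset.single_le_sum (f := fun P => P.ord (ω j fun _ => D0) - c P)
      (fun P _ => by have := hge j hj P; show 0 ≤ P.ord (ω j fun _ => D0) - c P; linarith) hP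
    have h4 := hge j hj P
    have h5 : P.ord (ω j fun _ => D0) - c P ≤ 0 := h3.trans h2
    linarith
  have hT00 : ∀ P : Place ℂ L, P.ord (ω 0 fun _ => D0) ≠ 0 → P ∈ T := fun P hP => by
    have := hT0 0 (Finset.mem_univ _) P hP
    simp only [hT, Finset.mem_union]
    exact Or.inl (Or.inl this)
  have hT01 : ∀ P : Place ℂ L, P.ord (ω 1 fun _ => D0) ≠ 0 → P ∈ T := fun P hP => by
    have := hT0 1 (Finset.mem_univ _) P hP
    simp only [hT, Finset.mem_union]
    exact Or.inl (Or.inl this)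
  have hord : ∀ P : Place ℂ L, P.ord (ω 1 (fun _ => D0) / ω 0 (fun _ => D0)) = 0 := by
    intro P
    rw [P.ord_div hf1 hf0]
    by_cases hP : P ∈ T
    · rw [heq 1 hf1 hT01 P hP, heq 0 hf0 hT00 P hP, sub_self]
    · have h1 : P.ord (ω 0 fun _ => D0) = 0 := by
        by_contra h
        exact hP (hT00 P h)
      have h2 : P.ord (ω 1 fun _ => D0) = 0 := by
        by_contra h
        exact hP (hT01 P h)
      rw [h1, h2, sub_self]
  have h1 := hgt_eq_finrank htr
  rw [hgt_finset (k := ℂ) _ ∅ (fun P hP => absurd (hord P) hP), Finset.sum_empty] at h1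
  have : FiniteDimensional (IntermediateField.adjoin ℂ
    {ω 1 (fun _ => D0) / ω 0 (fun _ => D0)}) L := IsFF.finite htr
  have h3 : 0 < Module.finrank (IntermediateField.adjoin ℂ
    {ω 1 (fun _ => D0) / ω 0 (fun _ => D0)}) L := Module.finrank_pos
  rw [← Int.natCast_pos, ← h1] at h3
  exact lt_irrefl _ h3

end Pool.Agent.Q96.HE
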