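import Pool.Agent.Q96.HE.Pointed

/-!
# Pseudo-geometric hyperbolicity of surfaces over orbifold pairs
-/

set_option autoImplicit false

namespace Pool.Agent.Q96.HE

open MvPolynomial FF Pool.Agent.W603.LV Pool.Agent.W603.PV Pool.Agent.Q271.RC Pool.Agent.Q96.LS
open Pool.Agent.W602.RG Pool.Agent.Y216 Pool.Agent.Q96.OS Pool.Agent.Q72.NA Pool.Agent.Q186.RU
open Pool.Agent.W602.GT (val IsForm VarPts val_smul GeneralType LogGeneralType)
open scoped LinearAlgebra.Projectivization

/-- The projective variety `Y` with generic point `b` is geometrically hyperbolic modulo the closed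
subset defined by the forms in `D`: for every pointed curve and every point `x` of `Y` which is not
in this subset, there are only finitely many maps from the curve to `Y` with the value `x` at the
marked point. -/
def GeomHypMod {N : ℕ} {K : Type} [Field K] [Algebra ℂ K] (b : Fin (N + 1) → K)
    (D : Set (MvPolynomial (Fin (N + 1)) ℂ)) : Prop :=
  ∀ (L : Type) [Field L] [Algebra ℂ L] [IsFF ℂ L] (c : Place ℂ L), ∀ x ∈ VarPts ℂ b,
    (∃ F ∈ D, aeval x F ≠ 0) → (PointedMaps b c x).Finite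

theorem centre_one {N : ℕ} {L : Type} [Field L] [Algebra ℂ L] {v : Fin (N + 1) → L}
    (hv : ∃ j, v j ≠ 0) (P : Place ℂ L) :
    ¬ CentreIn ({1} : Set (MvPolynomial (Fin (N + 1)) ℂ)) v P := by
  intro h
  obtain ⟨j, hj, hj'⟩ := exists_pord P hv
  rcases h (pord P v) ⟨fun i hi => pord_le P hi, j, hj, hj'⟩ 1 rfl 0 (isHomogeneous_one _ _)
    with h1 | h1
  · rw [map_one] at h1
    exact one_ne_zero h1
  · rw [map_one, P.ord_one] at h1
    simp at h1

theorem eul_one {N : ℕ} {L : Type} [Field L] [Algebra ℂ L] [IsFF ℂ L] {v : Fin (N + 1) → L}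
    (hv : ∃ j, v j ≠ 0) : eul ({1} : Set (MvPolynomial (Fin (N + 1)) ℂ)) v = canDeg ℂ L := by
  unfold eul
  have h : {P : Place ℂ L | CentreIn ({1} : Set (MvPolynomial (Fin (N + 1)) ℂ)) v P} = ∅ := by
    ext P
    simp [centre_one hv P]
  rw [h, Set.ncard_empty]
  simp

theorem lies_one {N : ℕ} {L : Type} [Field L] [Algebra ℂ L] {v : Fin (N + 1) → L} :
    ¬ LiesIn ({1} : Set (MvPolynomial (Fin (N + 1)) ℂ)) v := by
  intro h
  have := h 1 rfl
  rw [map_one] at this
  exact one_ne_zero this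

theorem homog_one {N : ℕ} : ∀ F ∈ ({1} : Set (MvPolynomial (Fin (N + 1)) ℂ)),
    ∃ E, F.IsHomogeneous E := by
  rintro F rfl
  exact ⟨0, isHomogeneous_one _ _⟩

/-- every place has a value -/
theorem exists_value {n : ℕ} {L : Type} [Field L] [Algebra ℂ L] [IsFF ℂ L] (P : Place ℂ L)
    {v : Fin (n + 1) → L} (hv : ∃ j, v j ≠ 0) : ∃ (x : Fin (n + 1) → ℂ) (j : Fin (n + 1)),
      v j ≠ 0 ∧ P.ord (v j) = pord P v ∧ x j = 1 ∧
      (∀ i, Ge P 1 (v i / v j - algebraMap ℂ L (x i))) ∧ HasValue P x v := by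
  classical
  obtain ⟨j, hj, hj'⟩ := exists_pord P hv
  have hreg : ∀ i, Ge P 0 (v i / v j) := by
    intro i
    by_cases hi : v i = 0
    · left
      rw [hi, zero_div]
    · right
      rw [P.ord_div hi hj, hj']
      have := pord_le P hi
      omega
  choose x0 hx0 using fun i => exists_const P (hreg i)
  let x : Fin (n + 1) → ℂ := fun i => if i = j then 1 else x0 i
  have hxj : x j = 1 := if_pos rfl
  have hx : ∀ i, Ge P 1 (v i / v j - algebraMap ℂ L (x i)) := by
    intro i
    by_cases hij : i = j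
    · left
      rw [hij, hxj, map_one, div_self hj, sub_self]
    · have : x i = x0 i := if_neg hij
      rw [this]
      exact hx0 i
  refine ⟨x, j, hj, hj', hxj, hx, fun i k => ?_⟩
  have e : algebraMap ℂ L (x i) * v k - algebraMap ℂ L (x k) * v i =
      v j * (algebraMap ℂ L (x i) * (v k / v j - algebraMap ℂ L (x k)) -
        algebraMap ℂ L (x k) * (v i / v j - algebraMap ℂ L (x i))) := by
    field_simp
    ring
  have h1 := ((Ge.const (P := P) (x i)).mul (hx k)).sub ((Ge.const (P := P) (x k)).mul (hx i))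
  rw [zero_add] at h1
  rw [e]
  rcases h1 with h1 | h1
  · left
    rw [h1, mul_zero]
  · by_cases h0 : algebraMap ℂ L (x i) * (v k / v j - algebraMap ℂ L (x k)) -
        algebraMap ℂ L (x k) * (v i / v j - algebraMap ℂ L (x i)) = 0
    · left
      rw [h0, mul_zero]
    · right
      rw [P.ord_mul hj h0, hj']
      omega

theorem hasValue_map {n : ℕ} {L : Type} [Field L] [Algebra ℂ L] [IsFF ℂ L] {P : Place ℂ L}
    {σ : L →ₐ[ℂ] L} {e : ℕ} (he : 0 < e) (hP : ∀ f, P.ord (σ f) = e * P.ord f)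
    {x : Fin (n + 1) → ℂ} {v : Fin (n + 1) → L} (hv : ∃ j, v j ≠ 0) (h : HasValue P x v) :
    HasValue P x (fun i => σ (v i)) := by
  intro i k
  have e1 : algebraMap ℂ L (x i) * σ (v k) - algebraMap ℂ L (x k) * σ (v i) =
      σ (algebraMap ℂ L (x i) * v k - algebraMap ℂ L (x k) * v i) := by
    rw [map_sub, map_mul, map_mul, AlgHom.commutes, AlgHom.commutes]
  rw [e1]
  rcases h i k with h1 | h1
  · left
    rw [h1, map_zero]
  · right
    obtain ⟨j, hj, hj'⟩ := exists_pord P hv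
    have h2 := pord_le P (f := fun i => σ (v i)) (j := j) ((map_ne_zero σ).2 hj)
    rw [hP, hj'] at h2
    rw [hP]
    have he' : (0 : ℤ) < e := by exact_mod_cast he
    exact lt_of_le_of_lt h2 (mul_lt_mul_of_pos_left h1 he')

/-- **Curves of genus at most one** have points with infinitely many pointed maps. -/
theorem infinite_pointed {n : ℕ} {K : Type} [Field K] [Algebra ℂ K] {b : Fin (n + 1) → K}
    {L : Type} [Field L] [Algebra ℂ L] [IsFF ℂ L] {v : Fin (n + 1) → L} (hb : IsPoint b v)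
    (hnc : Nonconst v) (h0 : canDeg ℂ L ≤ 0) {F : MvPolynomial (Fin (n + 1)) ℂ} {E : ℕ}
    (hF : F.IsHomogeneous E) (hFv : aeval v F ≠ 0) : ∃ (P : Place ℂ L) (x : Fin (n + 1) → ℂ),
      x ∈ VarPts ℂ b ∧ aeval x F ≠ 0 ∧ (PointedMaps b P x).Infinite := by
  classical
  have hv : ∃ j, v j ≠ 0 := by
    obtain ⟨i, j, hj, -⟩ := hnc
    exact ⟨j, hj⟩
  obtain ⟨T, hT⟩ := exists_supp (k := ℂ) Finset.univ v
  obtain ⟨T', hT'⟩ := exists_supp (k := ℂ) (Finset.univ : Finset (Fin 1)) ![aeval v F]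
  obtain ⟨P, hP⟩ := exists_place_not_mem (k := ℂ) (K := L) (T ∪ T')
  rw [Finset.mem_union, not_or] at hP
  have hv0 : ∀ j, P.ord (v j) = 0 := fun j => by
    by_contra h
    exact hP.1 (hT j (Finset.mem_univ j) P h)
  have hF0 : P.ord (aeval v F) = 0 := by
    by_contra h
    exact hP.2 (hT' 0 (Finset.mem_univ _) P h)
  obtain ⟨x, j, hj, hj', hxj, hx, hval⟩ := exists_value P hv
  have hxne : x ≠ 0 := by
    intro h
    rw [h] at hxj
    exact zero_ne_one hxj
  have hxb : x ∈ VarPts ℂ b := by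
    refine ⟨hxne, fun G hG hGb => ?_⟩
    obtain ⟨d, hd⟩ := id hG
    exact van_of_value hxne hv hval hG (hb G d hd hGb)
  have hxF : aeval x F ≠ 0 := by
    intro h
    have h1 : ∀ i, Ge P 0 (v i / v j) := by
      intro i
      have h3 : v i / v j = (v i / v j - algebraMap ℂ L (x i)) + algebraMap ℂ L (x i) := by ring
      rw [h3]
      exact ((hx i).mono (by norm_num)).add (Ge.const _)
    have h2 := red_mvaeval P h1 hx F
    have h3 : eval x F = 0 := by
      rw [← h, ← coe_aeval_eq_eval]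
      rfl
    rw [h3, map_zero, sub_zero] at h2
    have h4 : aeval v F = v j ^ E * aeval (fun i => v i / v j) F := by
      rw [← hom_scale (v j) _ hF]
      congr 2
      funext i
      field_simp
    have h5 : aeval (fun i => v i / v j) F ≠ 0 := by
      intro h6
      rw [h6, mul_zero] at h4
      exact hFv h4
    have h6 := h2.resolve_left h5
    rw [h4, P.ord_mul (pow_ne_zero _ hj) h5, P.ord_pow, hv0, mul_zero, zero_add] at hF0
    omega
  refine ⟨P, x, hxb, hxF, ?_⟩
  obtain ⟨σ, e, r, he, hσP, hr, hσr⟩ := exists_endo h0 P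
  let w : ℕ → Fin (n + 1) → L := fun k i => (σ^[k]) (v i)
  have hw : ∀ k i, w (k + 1) i = σ (w k i) := by
    intro k i
    simp only [w, Function.iterate_succ_apply']
  have hwne : ∀ k, ∃ j, w k j ≠ 0 := by
    intro k
    induction k with
    | zero => exact hv
    | succ k ih =>
      obtain ⟨j, hj⟩ := ih
      exact ⟨j, by rw [hw]; exact (map_ne_zero σ).2 hj⟩
  have hwht : ∀ k, pht ℂ (w (k + 1)) = r * pht ℂ (w k) := by
    intro k
    rw [← hσr n (w k) (hwne k)]
    exact congrArg (pht ℂ) (funext fun i => hw k i)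
  have hwpos : ∀ k, 0 < pht ℂ (w k) := by
    intro k
    induction k with
    | zero => exact pht_pos v hnc
    | succ k ih =>
      rw [hwht]
      exact mul_pos (by exact_mod_cast (by omega : 0 < r)) ih
  have hwmono : StrictMono fun k => pht ℂ (w k) := by
    refine strictMono_nat_of_lt_succ fun k => ?_
    rw [hwht]
    have h1 := hwpos k
    have h2 : (2 : ℤ) ≤ r := by exact_mod_cast hr
    nlinarith
  have hwval : ∀ k, HasValue P x (w k) := by
    intro k
    induction k with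
    | zero => exact hval
    | succ k ih =>
      have h1 := hasValue_map he hσP (hwne k) ih
      have h2 : (fun i => σ (w k i)) = w (k + 1) := funext fun i => (hw k i).symm
      rwa [h2] at h1
  have hwb : ∀ k, ∀ G : MvPolynomial (Fin (n + 1)) ℂ, IsForm G → val b G = 0 →
      val (w k) G = 0 := by
    intro k
    induction k with
    | zero =>
      intro G hG hGb
      obtain ⟨d, hd⟩ := hG
      exact hb G d hd hGb
    | succ k ih =>
      intro G hG hGb
      have h1 : val (w (k + 1)) G = σ (val (w k) G) := by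
        show aeval (w (k + 1)) G = σ (aeval (w k) G)
        rw [← aeval_map_hom]
        exact congrArg (fun z => aeval z G) (funext fun i => hw k i)
      rw [h1, ih G hG hGb, map_zero]
  refine Set.infinite_of_injective_forall_mem (f := fun k : ℕ =>
    Projectivization.mk L (w k) (Function.ne_iff.2 (hwne k))) ?_ ?_
  · intro k l hkl
    have h1 : Projectivization.mk L (w k) (Function.ne_iff.2 (hwne k)) =
        Projectivization.mk L (w l) (Function.ne_iff.2 (hwne l)) := hkl
    rw [Projectivization.mk_eq_mk_iff'] at h1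
    obtain ⟨a, ha⟩ := h1
    have ha0 : a ≠ 0 := by
      rintro rfl
      obtain ⟨j, hj⟩ := hwne k
      apply hj
      rw [← ha]
      simp
    have h2 : pht ℂ (w k) = pht ℂ (w l) := by
      rw [← ha]
      have h3 := pht_ext (F := L) (L := L) (w l) (hwne l) ha0
      rw [Module.finrank_self, Nat.cast_one, one_mul] at h3
      exact h3
    exact hwmono.injective h2
  · intro k
    exact ⟨w k, Function.ne_iff.2 (hwne k), hwb k, hwval k, rfl⟩

/-- **The exceptional set**. -/
theorem pointed_iff {N : ℕ} {K : Type} [Field K] [Algebra ℂ K] {b : Fin (N + 1) → K}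
    (hA : ∃ A : ℕ, ∀ (L : Type) [Field L] [Algebra ℂ L] [IsFF ℂ L] (v : Fin (N + 1) → L),
      IsMap b {1} v → pht ℂ v ≤ A * eul {1} v ∨ vanForms v ∈ lowCurves b {1})
    (D : Set (MvPolynomial (Fin (N + 1)) ℂ)) (hD : ∀ F ∈ D, ∃ E, F.IsHomogeneous E) :
    GeomHypMod b D ↔ ∀ V ∈ lowCurves b {1}, D ⊆ V := by
  constructor
  · rintro h V ⟨L, _, _, _, v, hv, hvg, heul, rfl⟩ F hF
    obtain ⟨E, hE⟩ := hD F hF
    refine ⟨⟨E, hE⟩, ?_⟩
    by_contra hFv
    rw [eul_one hvg.1] at heul
    obtain ⟨P, x, hx, hxF, hinf⟩ := infinite_pointed hv.point hv.nonconst heul hE hFv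
    exact hinf (h L P x hx ⟨F, hF, hxF⟩)
  · intro h L _ _ _ c x hx hxF
    obtain ⟨F, hF, hxF⟩ := hxF
    obtain ⟨E, hE⟩ := hD F hF
    obtain ⟨A, hA⟩ := hA
    have hmap : ∀ {M : Type} [Field M] [Algebra ℂ M] [IsFF ℂ M] {f : Fin (N + 1) → M},
        OnVar ℂ b f → Nonconst f → IsMap b {1} f := by
      intro M _ _ _ f hf hnc
      exact ⟨fun G E hG hGb => hf.2 G ⟨E, hG⟩ hGb, lies_one, hnc⟩
    refine pointed_finite c hx (max (A * canDeg ℂ L) 0) (fun f hf hval => ?_) fun g hg hnc => ?_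
    · by_cases hnc : Nonconst f
      · rcases hA L f (hmap hf hnc) with h1 | h1
        · rw [eul_one hf.1] at h1
          exact h1.trans (le_max_left _ _)
        · exfalso
          apply hxF
          exact van_of_value hx.1 hf.1 hval ⟨E, hE⟩ (h _ h1 hF).2
      · refine le_trans ?_ (le_max_right _ _)
        by_contra hcon
        rw [not_le] at hcon
        exact hnc (nonconst_of_pht hf.1 hcon)
    · refine ⟨F, ⟨E, hE⟩, ?_, hxF⟩
      have h1 := (hA (RatFunc ℂ) g (hmap hg hnc)).resolve_left (by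
        rw [eul_one hg.1, canDeg_ratFunc, not_le]
        have h2 := pht_pos g hnc
        have h3 : (0 : ℤ) ≤ A := Int.natCast_nonneg _
        linarith)
      exact (h _ h1 hF).2

/-- constant points have height zero -/
theorem curveBound_of {N : ℕ} {K : Type} [Field K] [Algebra ℂ K] {b : Fin (N + 1) → K}
    {G : MvPolynomial (Fin (N + 1)) ℂ} {E R : ℕ} (hG : G.IsHomogeneous E) (hGb : aeval b G ≠ 0)
    (h : ∀ (L : Type) [Field L] [Algebra ℂ L] [IsFF ℂ L] (v : Fin (N + 1) → L), IsMap b {1} v →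
      aeval v G ≠ 0 → pht ℂ v ≤ R * eul {1} v) : CurveBound ℂ b := by
  refine ⟨G, ⟨E, hG⟩, hGb, R, fun L _ _ _ f hf hfG => ?_⟩
  by_cases hnc : Nonconst f
  · have h1 := h L f ⟨fun G E hG hGb => hf.2 G ⟨E, hG⟩ hGb, lies_one, hnc⟩ hfG
    rw [eul_one hf.1] at h1
    exact h1.trans (mul_le_mul_of_nonneg_left (le_max_left _ _) (Int.natCast_nonneg _))
  · have h1 : pht ℂ f ≤ 0 := by
      by_contra hcon
      rw [not_le] at hcon
      exact hnc (nonconst_of_pht hf.1 hcon)
    exact h1.trans (mul_nonneg (Int.natCast_nonneg _) (le_max_right _ _))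

theorem generalType_of {N d : ℕ} {K : Type} [Field K] [Algebra ℂ K] {b : Fin (N + 1) → K}
    (hb : ∃ j, b j ≠ 0) (h : LogGeneralType ℂ K d (CentreIn {1} b)) : GeneralType ℂ K d := by
  obtain ⟨h1, M, hM, ω, h2, -, h4, h5⟩ := h
  exact ⟨h1, M, hM, ω, h2, fun P hP j => h4 P hP (centre_one hb P) j, h5⟩

/-- **The main theorem.** -/
theorem main_pointed {N n d : ℕ} {K : Type} [Field K] [Algebra ℂ K] {a : Fin (N + 1) → K}
    {f : Fin (n + 1) → MvPolynomial (Fin (N + 1)) ℂ} {e : ℕ} {Q : MvPolynomial (Fin (n + 1)) ℂ}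
    (hd : 0 < d) (hX : IsOrbPair d a f e Q) :
    ∃ (m : ℕ) (B : MvPolynomial (Fin (N + 1)) ℂ) (E : ℕ), B.IsHomogeneous E ∧ aeval a B ≠ 0 ∧
      ∀ (N' : ℕ) (K' : Type) [Field K'] [Algebra ℂ K'] [Algebra K K']
      [IsScalarTower ℂ K K'] (b : Fin (N' + 1) → K')
      (g : Fin (N + 1) → MvPolynomial (Fin (N' + 1)) ℂ) (e' : ℕ), IsCover a b g e' →
      OrbOff m Q b {1} (fun i => bind₁ g (f i)) →
      GeneralType ℂ K' d ∧ PseudoGeomHyp ℂ b ∧
      (∀ (L : Type) [Field L] [Algebra ℂ L] [IsFF ℂ L] (v : Fin (N' + 1) → L), IsMap b {1} v →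
        canDeg ℂ L ≤ 0 → aeval v (bind₁ g B) = 0 ∨ ¬ Nonconst (fun i => aeval v (g i))) ∧
      (d ≤ 2 → (lowCurves b {1}).Finite ∧
        ∀ D : Set (MvPolynomial (Fin (N' + 1)) ℂ), (∀ F ∈ D, ∃ E, F.IsHomogeneous E) →
          (GeomHypMod b D ↔ ∀ V ∈ lowCurves b {1}, D ⊆ V)) := by
  obtain ⟨m1, hm1⟩ := bound_off hX
  obtain ⟨m2, A, B, E, hB, hBa, hm2⟩ := Pool.Agent.Q96.OS.main hd hX
  refine ⟨m1 + m2, B, E, hB, hBa, fun N' K' _ _ _ _ b g e' hY hoff => ?_⟩
  obtain ⟨G1, E1, R1, hG1, hGb1, hbd1⟩ := hm1 (m1 + m2) (by omega) N' K' b g e' hY {1} homog_one hoff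
  obtain ⟨hlgt, hcur, -, G2, E2, R2, hG2, hGb2, -, hst⟩ :=
    hm2 N' K' b g e' hY {1} homog_one (orbOff_mono (by omega) hoff)
  refine ⟨generalType_of hY.gen.1 hlgt, pointed_of_bound (curveBound_of hG1 hGb1 hbd1), ?_,
    fun hd2 => ?_⟩
  · intro L _ _ _ v hv h0
    by_contra hcon
    push Not at hcon
    obtain ⟨hBv, hnc⟩ := hcon
    have hv0 : ∃ j, v j ≠ 0 := by
      obtain ⟨i, j, hj, -⟩ := hv.nonconst
      exact ⟨j, hj⟩
    obtain ⟨M, _, _, _, w, hw, hs⟩ := exists_curve hv.nonconst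
    obtain ⟨r, hr, -, hr2⟩ := curve_map hw hv0 hs {1} homog_one lies_one
    rw [eul_one hw.1, eul_one hv0] at hr2
    obtain ⟨σ, l, hl, hvl⟩ := lift_point hw hv0 hs
    have hv' : v = fun i => l * (fun i => σ (w i)) i := funext hvl
    have hgv : ∀ i, aeval v (g i) = l ^ e' * σ (aeval w (g i)) := by
      intro i
      rw [hv', hom_scale l _ (hY.hom i), aeval_map_hom]
    have hncw : Nonconst (fun i => aeval w (g i)) := by
      obtain ⟨i, j, hj, hij⟩ := hnc
      have hj' : aeval w (g j) ≠ 0 := by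
        intro h
        apply hj
        simp only [hgv, h, map_zero, mul_zero]
      refine ⟨i, j, hj', fun halg => hij ?_⟩
      have h1 : aeval v (g i) / aeval v (g j) = σ (aeval w (g i) / aeval w (g j)) := by
        rw [hgv, hgv, mul_div_mul_left _ _ (pow_ne_zero _ hl), map_div₀]
      simp only [h1]
      exact halg.algHom σ
    have hBw : aeval w (bind₁ g B) ≠ 0 := fun h =>
      hBv ((hs _ _ (hom_bind g e' hY.hom hB)).1 h)
    obtain ⟨-, h1⟩ := hcur M w ⟨fun G E hG hGb => (hs G E hG).2 (hv.point G E hG hGb), hw,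
      lies_one, hBw⟩ hncw
    have h2 := pht_pos _ hncw
    have h3 : canDeg ℂ M ≤ 0 := by
      by_contra hcon
      rw [not_le] at hcon
      have hr' : (0 : ℤ) < r := by exact_mod_cast hr
      have := mul_pos hr' hcon
      omega
    have h4 : ({P : Place ℂ M | CentreIn {1} w P}.ncard : ℤ) = 0 := by
      have h5 := eul_one hw.1
      unfold eul at h5
      omega
    rw [h4, add_zero] at h1
    have h5 : (A : ℤ) * canDeg ℂ M ≤ 0 :=
      mul_nonpos_of_nonneg_of_nonpos (Int.natCast_nonneg _) h3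
    omega
  · have hfull : ∀ (L : Type) [Field L] [Algebra ℂ L] (v : Fin (N' + 1) → L), IsPoint b v →
        IsGeneric v → ¬ LiesIn {1} v → Algebra.trdeg ℂ L = d →
        LogGeneralType ℂ L d (CentreIn {1} v) := by
      intro L _ _ v hv hvg hoffv ht
      refine hst hd2 L v d ⟨hv, hvg, hoffv, ?_⟩ ht hd
      obtain ⟨-, hiso⟩ := gen_point' hY.gen hlgt.1 L v d hv hvg ht
      obtain ⟨σ, l, hl, hvl, hσ⟩ := hiso rfl
      have h1 : v = fun i => l * (fun i => σ (b i)) i := funext hvl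
      rw [h1, hom_scale l _ hG2, aeval_map_hom]
      exact mul_ne_zero (pow_ne_zero _ hl) ((map_ne_zero σ).2 hGb2)
    obtain ⟨h1, h2, -⟩ := surface hY.gen hlgt.1 hd2 homog_one hfull hG1 hGb1 hbd1
    exact ⟨h1, fun D hD => pointed_iff h2 D hD⟩

end Pool.Agent.Q96.HE
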