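import Pool.Agent.Q96.HE.Main
import Pool.Agent.Q96.HE.Endo
import Pool.Agent.Y216.Point

/-!
Finiteness of pointed maps from curves, for a single base point.
-/

set_option autoImplicit false

namespace Pool.Agent.Q96.HE

open MvPolynomial FF Pool.Agent.W603.LV Pool.Agent.W603.PV Pool.Agent.Q271.RC Pool.Agent.Q96.LS
open Pool.Agent.W602.RG Pool.Agent.Y216
open Pool.Agent.W602.GT (val IsForm VarPts val_smul)
open scoped LinearAlgebra.Projectivization

variable {n : ℕ} {K : Type} [Field K] [Algebra ℂ K]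

/-- a map with the value `x` at `c` does not satisfy equations which `x` does not satisfy -/
theorem van_of_value {L : Type} [Field L] [Algebra ℂ L] [IsFF ℂ L] {c : Place ℂ L}
    {x : Fin (n + 1) → ℂ} (hx : x ≠ 0) {f : Fin (n + 1) → L} (hf : ∃ j, f j ≠ 0)
    (hval : HasValue c x f) {G : MvPolynomial (Fin (n + 1)) ℂ} (hG : IsForm G)
    (h0 : aeval f G = 0) : aeval x G = 0 := by
  classical
  obtain ⟨j0, hj0⟩ := Function.ne_iff.1 hx
  have hj0 : x j0 ≠ 0 := hj0
  have hfj0 := Pool.Agent.W273.RG.FNW.hv_ne hf hval hj0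
  obtain ⟨d, hd⟩ := hG
  -- normalize
  have hc0 : (f j0)⁻¹ ≠ 0 := inv_ne_zero hfj0
  have hval' := Pool.Agent.W273.RG.FNW.hv_scale hf hval hc0
  set f' : Fin (n + 1) → L := fun j => (f j0)⁻¹ * f j with hf'
  have hf0 : f' j0 = 1 := inv_mul_cancel₀ hfj0
  have h0' : aeval f' G = 0 := by
    have h1 : val f' G = (f j0)⁻¹ ^ d * val f G := val_smul hd _ _
    have h2 : val f G = 0 := h0
    rw [h2, mul_zero] at h1
    exact h1
  have hvalues : ∀ j, f' j = algebraMap ℂ L (x j / x j0) ∨
      0 < c.ord (f' j - algebraMap ℂ L (x j / x j0)) := by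
    intro j
    have hp := Pool.Agent.W273.RG.FNW.pord_zero hval' hj0 hf0
    have hxj0 : algebraMap ℂ L (x j0) ≠ 0 := (map_ne_zero _).2 hj0
    have e : algebraMap ℂ L (x j0) * f' j - algebraMap ℂ L (x j) * f' j0 =
        algebraMap ℂ L (x j0) * (f' j - algebraMap ℂ L (x j / x j0)) := by
      rw [hf0, map_div₀]
      field_simp
    rcases hval' j0 j with h3 | h3
    · left
      rw [e] at h3
      exact sub_eq_zero.1 ((mul_eq_zero.1 h3).resolve_left hxj0)
    · by_cases h4 : f' j - algebraMap ℂ L (x j / x j0) = 0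
      · left; exact sub_eq_zero.1 h4
      · right
        rw [e, c.ord_mul hxj0 h4, c.ord_const hj0, zero_add, hp] at h3
        exact h3
  have h1 : ∀ j, Ge c 1 (f' j - algebraMap ℂ L (x j / x j0)) := by
    intro j
    rcases hvalues j with h | h
    · left; rw [h, sub_self]
    · right; omega
  have h2 : ∀ j, Ge c 0 (f' j) := by
    intro j
    have h3 : f' j = (f' j - algebraMap ℂ L (x j / x j0)) + algebraMap ℂ L (x j / x j0) := by ring
    rw [h3]
    exact ((h1 j).mono (by norm_num)).add (Ge.const _)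
  have h3 := red_mvaeval c h2 h1 G
  rw [h0', zero_sub] at h3
  have h4 := h3.neg
  rw [neg_neg] at h4
  have h5 := const_zero c h4
  have h6 : x = fun j => x j0 * (x j / x j0) := by
    funext j
    field_simp
  have h7 : val (fun j => x j0 * (x j / x j0)) G = x j0 ^ d * val (fun j => x j / x j0) G :=
    val_smul hd _ _
  have h8 : val (fun j => x j / x j0) G = eval (fun j => x j / x j0) G := by
    unfold Pool.Agent.W602.GT.val
    rw [MvPolynomial.aeval_def, MvPolynomial.eval₂_eq', MvPolynomial.eval_eq']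
    rfl
  rw [← h6, h8, h5, mul_zero] at h7
  exact h7

/-- **Finiteness of pointed maps** at one point. -/
theorem pointed_finite {y : Fin (n + 1) → K} {L : Type} [Field L] [Algebra ℂ L] [IsFF ℂ L]
    (c : Place ℂ L) {x : Fin (n + 1) → ℂ} (hx : x ∈ VarPts ℂ y) (C : ℤ)
    (hC : ∀ f : Fin (n + 1) → L, OnVar ℂ y f → HasValue c x f → pht ℂ f ≤ C)
    (hR : ∀ g : Fin (n + 1) → RatFunc ℂ, OnVar ℂ y g → Nonconst g →
      ∃ G : MvPolynomial (Fin (n + 1)) ℂ, IsForm G ∧ aeval g G = 0 ∧ aeval x G ≠ 0) :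
    (PointedMaps y c x).Finite := by
  classical
  by_contra hfin
  have hinf : (PointedMaps y c x).Infinite := hfin
  obtain ⟨j0, hj0⟩ := Function.ne_iff.1 hx.1
  have hj0 : x j0 ≠ 0 := hj0
  set M : Set (Fin (n + 1) → L) := {f | f j0 = 1 ∧ (∀ H : MvPolynomial (Fin (n + 1)) ℂ, IsForm H →
    val y H = 0 → val f H = 0) ∧ HasValue c x f} with hM
  have hMinf : M.Infinite := by
    intro hMfin
    obtain ⟨φ0, -⟩ := hinf.nonempty
    let g : (Fin (n + 1) → L) → ℙ L (Fin (n + 1) → L) := fun f =>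
      if h : f ≠ 0 then Projectivization.mk L f h else φ0
    refine hinf ((hMfin.image g).subset ?_)
    rintro φ ⟨f, hf, hmap, hval, rfl⟩
    have hfne : ∃ j, f j ≠ 0 := Function.ne_iff.1 hf
    have hfj0 := Pool.Agent.W273.RG.FNW.hv_ne hfne hval hj0
    have hc0 : (f j0)⁻¹ ≠ 0 := inv_ne_zero hfj0
    have hf' : (fun j => (f j0)⁻¹ * f j) ≠ 0 := by
      intro h0
      have := congrFun h0 j0
      simp only [Pi.zero_apply] at this
      exact (mul_ne_zero hc0 hfj0) this
    refine ⟨fun j => (f j0)⁻¹ * f j, ⟨inv_mul_cancel₀ hfj0, ?_,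
      Pool.Agent.W273.RG.FNW.hv_scale hfne hval hc0⟩, ?_⟩
    · intro H hH hyH
      have h3 := hmap H hH hyH
      obtain ⟨e, he⟩ := hH
      rw [val_smul he, h3, mul_zero]
    · change (if h : (fun j => (f j0)⁻¹ * f j) ≠ 0 then
        Projectivization.mk L (fun j => (f j0)⁻¹ * f j) h else φ0) = _
      rw [dif_pos hf', Projectivization.mk_eq_mk_iff']
      exact ⟨(f j0)⁻¹, by funext j; rfl⟩
  have hvalues : ∀ f ∈ M, ∀ j, f j = algebraMap ℂ L (x j / x j0) ∨
      0 < c.ord (f j - algebraMap ℂ L (x j / x j0)) := by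
    rintro f ⟨hf0, hmap, hval⟩ j
    have hp := Pool.Agent.W273.RG.FNW.pord_zero hval hj0 hf0
    have hxj0 : algebraMap ℂ L (x j0) ≠ 0 := (map_ne_zero _).2 hj0
    have e : algebraMap ℂ L (x j0) * f j - algebraMap ℂ L (x j) * f j0 =
        algebraMap ℂ L (x j0) * (f j - algebraMap ℂ L (x j / x j0)) := by
      rw [hf0, map_div₀]
      field_simp
    rcases hval j0 j with h3 | h3
    · left
      rw [e] at h3
      exact sub_eq_zero.1 ((mul_eq_zero.1 h3).resolve_left hxj0)
    · by_cases h4 : f j - algebraMap ℂ L (x j / x j0) = 0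
      · left; exact sub_eq_zero.1 h4
      · right
        rw [e, c.ord_mul hxj0 h4, c.ord_const hj0, zero_add, hp] at h3
        exact h3
  have hhgt : ∀ f ∈ M, ∀ j, hgt ℂ (f j) ≤ max C 0 := by
    rintro f ⟨hf0, hmap, hval⟩ j
    have h5 := hC f ⟨⟨j0, by rw [hf0]; exact one_ne_zero⟩, hmap⟩ hval
    by_cases h0 : f j = 0
    · have h7 : hgt ℂ (f j) = 0 := by
        rw [h0]
        exact hgt_algebraic (k := ℂ) (K := L) (f := 0) isAlgebraic_zero
      rw [h7]
      exact le_max_right _ _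
    · have h6 := Pool.Agent.W603.CX.hgt_le_pht (k := ℂ) f (j := j) (l := j0) h0
        (by rw [hf0]; exact one_ne_zero)
      rw [hf0, div_one] at h6
      exact (h6.trans h5).trans (le_max_left _ _)
  -- bend and break
  let z : ℕ ↪ M := hMinf.natEmbedding M
  obtain ⟨g, ⟨j1, hj1⟩, hg1, hg2⟩ := Pool.Agent.TH152.BB.bb_val Pool.Agent.TH152.BB.bb_all c
    (fun m => (z m : Fin (n + 1) → L)) (fun j => x j / x j0) (max C 0)
    (fun a b hab => z.injective (Subtype.ext hab)) (fun m j => hvalues _ (z m).2 j)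
    (fun m j => hhgt _ (z m).2 j)
  have hg0 : g j0 = 1 := by
    have h1 := hg1 (X j0 - 1) (fun m => by
      rw [map_sub, aeval_X, map_one, (z m).2.1, sub_self])
    rw [map_sub, aeval_X, map_one] at h1
    exact sub_eq_zero.1 h1
  have hgne : ∃ j, g j ≠ 0 := ⟨j0, by rw [hg0]; exact one_ne_zero⟩
  have hnc : Nonconst g := by
    refine ⟨j1, j0, by rw [hg0]; exact one_ne_zero, fun halg => hj1 ?_⟩
    rw [hg0, div_one] at halg
    have h2 := IsAlgClosed.degree_eq_one_of_irreducible ℂ (minpoly.irreducible halg.isIntegral)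
    exact minpoly.mem_range_of_degree_eq_one ℂ (g j1) h2
  obtain ⟨G, ⟨d, hd⟩, hGg, hGx⟩ := hR g ⟨hgne, fun H hH hyH => hg1 H fun m => (z m).2.2.1 H hH hyH⟩
    hnc
  apply hGx
  have h1 := hg2 G hGg
  have h6 : x = fun j => x j0 * (x j / x j0) := by
    funext j
    field_simp
  have h7 : val (fun j => x j0 * (x j / x j0)) G = x j0 ^ d * val (fun j => x j / x j0) G :=
    val_smul hd _ _
  have h8 : val (fun j => x j / x j0) G = eval (fun j => x j / x j0) G := by
    unfold Pool.Agent.W602.GT.val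
    rw [MvPolynomial.aeval_def, MvPolynomial.eval₂_eq', MvPolynomial.eval_eq']
    rfl
  rw [← h6, h8, h1, mul_zero] at h7
  exact h7

end Pool.Agent.Q96.HE
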